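import Mathlib

/-!
# MP_a86bc9_an : statements of the two independent pieces

`St_FLOW` : a C¹ flow on the 3-torus whose time `2π` map on the section `z = 1` is the
composition of two sine shears with large amplitude.
`St_CODE` : existence of orbits with prescribed digits for that map.
-/

namespace Pool.Agent.R812.SF

open scoped Manifold ContDiff Real
open Real

/-- The 3-torus. -/
abbrev T3 := Circle × Circle × Circle

/-- The model with corners of the 3-torus. -/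
noncomputable abbrev IT3 := (𝓡 1).prod ((𝓡 1).prod (𝓡 1))

def St_FLOW : Prop :=
  ∀ N : ℝ, ∃ (A : ℝ) (φ : ℝ → T3 → T3), N ≤ A ∧
    ContMDiff ((𝓘(ℝ, ℝ)).prod IT3) IT3 1 (fun p : ℝ × T3 => φ p.1 p.2) ∧
    (∀ m, φ 0 m = m) ∧ (∀ s t m, φ (s + t) m = φ s (φ t m)) ∧
    (∀ t m, (φ t m).2.2 = m.2.2 * Circle.exp t) ∧
    (∀ x y : ℝ, φ (2 * π) (Circle.exp x, Circle.exp y, 1) =
      (Circle.exp (x + A * sin y), Circle.exp (y + A * sin (x + A * sin y)), 1))

def St_CODE : Prop :=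
  ∀ A : ℝ, 128 ≤ A → ∀ a : ℤ → Fin 6, ∃ x y : ℤ → ℝ,
    (∀ n, |x n| ≤ 1 / 2) ∧ (∀ n, |y n| ≤ 1 / 2) ∧
    (∀ n, x (n + 1) = x n + A * sin (y n) - 2 * π * (a n : ℕ)) ∧
    (∀ n, y (n + 1) = y n + A * sin (x (n + 1)))

end Pool.Agent.R812.SF
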