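import Mathlib

/-!
# MP_a86bc9_an : avoiding few partial words
-/

namespace Pool.Agent.R812.SF

/-- Fewer than `2 ^ n` partial `0/1`-words, each prescribing at least `n` values, can be avoided
simultaneously. -/
theorem exists_avoid {ι : Type*} (S : Finset ι) (n : ℕ) (hS : S.card < 2 ^ n)
    (P : ι → Finset ℤ) (w : ι → ℤ → Fin 2) (hP : ∀ c ∈ S, n ≤ (P c).card) :
    ∃ a : ℤ → Fin 2, ∀ c ∈ S, ∃ p ∈ P c, a p ≠ w c p := by
  classical
  by_contra hcon
  push Not at hcon
  set Q : Finset ℤ := S.biUnion P with hQ
  have hPQ : ∀ c ∈ S, P c ⊆ Q := fun c hc => Finset.subset_biUnion_of_mem P hc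
  -- the functions on `Q` extending the word of `c`
  let t : ι → (Q → Finset (Fin 2)) := fun c p =>
    if (p : ℤ) ∈ P c then {w c p} else Finset.univ
  have hcard : ∀ c ∈ S, (Fintype.piFinset (t c)).card * 2 ^ n ≤ 2 ^ Q.card := by
    intro c hc
    rw [Fintype.card_piFinset]
    have h1 : ∀ p : Q, (t c p).card = if (p : ℤ) ∈ P c then 1 else 2 := by
      intro p
      simp only [t]
      split_ifs <;> simp
    simp_rw [h1]
    rw [Finset.prod_ite, Finset.prod_const_one, one_mul, Finset.prod_const]
    have h2 : (Finset.univ.filter (fun p : Q => (p : ℤ) ∈ P c)).card = (P c).card := by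
      have : (Finset.univ.filter (fun p : Q => (p : ℤ) ∈ P c)).map
          (Function.Embedding.subtype _) = P c := by
        ext z
        simp only [Finset.mem_map, Finset.mem_filter, Finset.mem_univ, true_and,
          Function.Embedding.coe_subtype, Subtype.exists, exists_and_left, exists_prop,
          exists_eq_right_right]
        constructor
        · rintro ⟨h, _⟩; exact h
        · intro h; exact ⟨h, hPQ c hc h⟩
      have h := congrArg Finset.card this
      rw [Finset.card_map] at h
      exact h
    have h3 := Finset.card_filter_add_card_filter_not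
      (s := (Finset.univ : Finset Q)) (fun p : Q => (p : ℤ) ∈ P c)
    rw [h2, Finset.card_univ, Fintype.card_coe] at h3
    rw [← pow_add]
    apply Nat.pow_le_pow_right (by norm_num)
    have := hP c hc
    omega
  have hcover : (Finset.univ : Finset (Q → Fin 2)) ⊆
      S.biUnion (fun c => Fintype.piFinset (t c)) := by
    intro f _
    let a : ℤ → Fin 2 := fun z => if h : z ∈ Q then f ⟨z, h⟩ else 0
    obtain ⟨c, hc, h⟩ := hcon a
    rw [Finset.mem_biUnion]
    refine ⟨c, hc, ?_⟩
    rw [Fintype.mem_piFinset]
    intro p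
    simp only [t]
    split_ifs with hp
    · have h1 := h p hp
      simp only [a, p.2, dif_pos] at h1
      rw [Finset.mem_singleton]
      exact h1
    · exact Finset.mem_univ _
  have h1 := Finset.card_le_card hcover
  have h2 : (S.biUnion (fun c => Fintype.piFinset (t c))).card ≤
      ∑ c ∈ S, (Fintype.piFinset (t c)).card := Finset.card_biUnion_le
  have h3 : (Finset.univ : Finset (Q → Fin 2)).card = 2 ^ Q.card := by
    rw [Finset.card_univ, Fintype.card_fun, Fintype.card_fin, Fintype.card_coe]
  rw [h3] at h1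
  have h4 : (∑ c ∈ S, (Fintype.piFinset (t c)).card) * 2 ^ n ≤ S.card * 2 ^ Q.card := by
    rw [Finset.sum_mul]
    calc ∑ c ∈ S, (Fintype.piFinset (t c)).card * 2 ^ n ≤ ∑ _c ∈ S, 2 ^ Q.card :=
          Finset.sum_le_sum hcard
      _ = S.card * 2 ^ Q.card := by rw [Finset.sum_const, smul_eq_mul]
  have h5 : 2 ^ Q.card * 2 ^ n ≤ S.card * 2 ^ Q.card :=
    (Nat.mul_le_mul_right _ (h1.trans h2)).trans h4
  have h6 : 0 < 2 ^ Q.card := by positivity
  have h7 : 2 ^ n ≤ S.card := by
    rw [mul_comm] at h5
    exact Nat.le_of_mul_le_mul_right h5 h6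
  omega

end Pool.Agent.R812.SF
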