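import Pool.Agent.R812.SF.Stmts

/-! Existence of orbits with prescribed digits, by Banach's fixed point theorem. -/

namespace Pool.Agent.R812.SF

open Real BoundedContinuousFunction

/-- The interval `[-1/2, 1/2]`. -/
abbrev I2 : Type := Set.Icc (-(1 / 2) : ℝ) (1 / 2)

lemma sub_sin_lip {u v : ℝ} (hu : u ∈ Set.Icc (-(1 / 2) : ℝ) (1 / 2))
    (hv : v ∈ Set.Icc (-(1 / 2) : ℝ) (1 / 2)) :
    |(u - sin u) - (v - sin v)| ≤ 1 / 8 * |u - v| := by
  have h := (convex_Icc (-(1 / 2) : ℝ) (1 / 2)).norm_image_sub_le_of_norm_hasDerivWithin_le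
    (f := fun w : ℝ => w - sin w) (f' := fun w => 1 - cos w) (C := 1 / 8)
    (fun w _ => ((hasDerivAt_id w).sub (hasDerivAt_sin w)).hasDerivWithinAt)
    (fun w hw => by
      have h1 := one_sub_sq_div_two_le_cos (x := w)
      have h2 := cos_le_one w
      have h3 : w ^ 2 ≤ 1 / 4 := by nlinarith [hw.1, hw.2]
      rw [norm_eq_abs, abs_of_nonneg (by linarith)]
      linarith) hv hu
  simpa [norm_eq_abs] using h

lemma sub_sin_le {u : ℝ} (hu : u ∈ Set.Icc (-(1 / 2) : ℝ) (1 / 2)) :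
    |u - sin u| ≤ 1 / 16 := by
  have h := sub_sin_lip hu (v := 0) (by constructor <;> norm_num)
  have h2 : |u| ≤ 1 / 2 := abs_le.2 hu
  simp only [sin_zero, sub_zero] at h
  linarith

lemma mem_I2 {z : ℝ} (h : |z| ≤ 1 / 2) : z ∈ Set.Icc (-(1 / 2) : ℝ) (1 / 2) := abs_le.1 h

section
variable (A : ℝ) (a : ℤ → Fin 6)

/-- first component -/
noncomputable def c1 (f : ℤ → I2 × I2) (n : ℤ) : ℝ :=
  ((f n).1 : ℝ) - sin (f n).1 + (((f n).2 : ℝ) - (f (n - 1)).2) / A

/-- second component -/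
noncomputable def c2 (f : ℤ → I2 × I2) (n : ℤ) : ℝ :=
  ((f n).2 : ℝ) - sin (f n).2 + (((f (n + 1)).1 : ℝ) - (f n).1 + 2 * π * ((a n : ℕ) : ℝ)) / A

lemma c1_mem (hA : 128 ≤ A) (f : ℤ → I2 × I2) (n : ℤ) :
    c1 A f n ∈ Set.Icc (-(1 / 2) : ℝ) (1 / 2) := by
  apply mem_I2
  have h1 := abs_le.1 (sub_sin_le (f n).1.2)
  have h2 := (f n).2.2
  have h3 := (f (n - 1)).2.2
  have hA0 : 0 < A := by linarith
  have h4 : |(((f n).2 : ℝ) - (f (n - 1)).2) / A| ≤ 1 / 128 := by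
    rw [abs_div, abs_of_pos hA0, div_le_iff₀ hA0]
    have : |((f n).2 : ℝ) - (f (n - 1)).2| ≤ 1 := by
      rw [abs_le]; constructor <;> linarith [h2.1, h2.2, h3.1, h3.2]
    linarith
  have h5 := abs_le.1 h4
  rw [abs_le, c1]
  constructor <;> linarith [h1.1, h1.2, h5.1, h5.2]

lemma c2_mem (hA : 128 ≤ A) (f : ℤ → I2 × I2) (n : ℤ) :
    c2 A a f n ∈ Set.Icc (-(1 / 2) : ℝ) (1 / 2) := by
  apply mem_I2
  have h1 := abs_le.1 (sub_sin_le (f n).2.2)
  have h2 := (f n).1.2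
  have h3 := (f (n + 1)).1.2
  have hA0 : 0 < A := by linarith
  have ha : ((a n : ℕ) : ℝ) ≤ 5 := by
    have : (a n : ℕ) ≤ 5 := by omega
    exact_mod_cast this
  have ha0 : (0 : ℝ) ≤ ((a n : ℕ) : ℝ) := Nat.cast_nonneg _
  have hpi := pi_lt_d2
  have hpi0 := pi_pos
  have h6 : 2 * π * ((a n : ℕ) : ℝ) ≤ 32 := by nlinarith
  have h7 : 0 ≤ 2 * π * ((a n : ℕ) : ℝ) := by positivity
  have h4 : |(((f (n + 1)).1 : ℝ) - (f n).1 + 2 * π * ((a n : ℕ) : ℝ)) / A| ≤ 3 / 8 := by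
    rw [abs_div, abs_of_pos hA0, div_le_iff₀ hA0]
    have : |((f (n + 1)).1 : ℝ) - (f n).1 + 2 * π * ((a n : ℕ) : ℝ)| ≤ 33 := by
      rw [abs_le]; constructor <;> linarith [h2.1, h2.2, h3.1, h3.2]
    linarith
  have h5 := abs_le.1 h4
  rw [abs_le, c2]
  constructor <;> linarith [h1.1, h1.2, h5.1, h5.2]

/-- The map whose fixed points are the orbits. -/
noncomputable def Phi (hA : 128 ≤ A) (f : ℤ →ᵇ (I2 × I2)) : ℤ →ᵇ (I2 × I2) :=
  mkOfDiscrete (fun n => (⟨c1 A f n, c1_mem A hA f n⟩, ⟨c2 A a f n, c2_mem A a hA f n⟩)) 1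
    (by
      intro m n
      rw [Prod.dist_eq, max_le_iff]
      constructor
      · rw [Subtype.dist_eq, Real.dist_eq, abs_le]
        have h1 := c1_mem A hA f m
        have h2 := c1_mem A hA f n
        constructor <;> simp only <;> linarith [h1.1, h1.2, h2.1, h2.2]
      · rw [Subtype.dist_eq, Real.dist_eq, abs_le]
        have h1 := c2_mem A a hA f m
        have h2 := c2_mem A a hA f n
        constructor <;> simp only <;> linarith [h1.1, h1.2, h2.1, h2.2])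

lemma dist_fst_le (f g : ℤ →ᵇ (I2 × I2)) (n : ℤ) :
    |((f n).1 : ℝ) - (g n).1| ≤ dist f g := by
  calc |((f n).1 : ℝ) - (g n).1| = dist (f n).1 (g n).1 := by
        rw [Subtype.dist_eq, Real.dist_eq]
    _ ≤ dist (f n) (g n) := le_max_left _ _
    _ ≤ dist f g := dist_coe_le_dist n

lemma dist_snd_le (f g : ℤ →ᵇ (I2 × I2)) (n : ℤ) :
    |((f n).2 : ℝ) - (g n).2| ≤ dist f g := by
  calc |((f n).2 : ℝ) - (g n).2| = dist (f n).2 (g n).2 := by
        rw [Subtype.dist_eq, Real.dist_eq]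
    _ ≤ dist (f n) (g n) := le_max_right _ _
    _ ≤ dist f g := dist_coe_le_dist n

lemma Phi_contracting (hA : 128 ≤ A) : ContractingWith (1 / 2) (Phi A a hA) := by
  refine ⟨by norm_num, ?_⟩
  apply LipschitzWith.of_dist_le_mul
  intro f g
  have hA0 : 0 < A := by linarith
  have hd0 : 0 ≤ dist f g := dist_nonneg
  have hco : (((1 / 2 : NNReal)) : ℝ) = 1 / 2 := by norm_num
  rw [hco, dist_le (by positivity)]
  intro n
  have key : ∀ p q r s t u : ℝ, p ∈ Set.Icc (-(1 / 2) : ℝ) (1 / 2) →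
      q ∈ Set.Icc (-(1 / 2) : ℝ) (1 / 2) → |p - q| ≤ dist f g → |r - s| ≤ dist f g →
      |t - u| ≤ dist f g → ∀ e : ℝ,
      |(p - sin p + (r - t + e) / A) - (q - sin q + (s - u + e) / A)| ≤ 1 / 2 * dist f g := by
    intro p q r s t u hp hq h1 h2 h3 e
    have h4 := sub_sin_lip hp hq
    have h5 : (p - sin p + (r - t + e) / A) - (q - sin q + (s - u + e) / A) =
        ((p - sin p) - (q - sin q)) + ((r - s) - (t - u)) / A := by
      field_simp
      ring
    rw [h5]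
    have h6 : |((r - s) - (t - u)) / A| ≤ 2 * dist f g / 128 := by
      rw [abs_div, abs_of_pos hA0]
      have h7 : |(r - s) - (t - u)| ≤ 2 * dist f g := by
        have := abs_sub (r - s) (t - u)
        linarith
      exact div_le_div₀ (by positivity) h7 (by norm_num) hA
    have h8 := abs_add_le ((p - sin p) - (q - sin q)) (((r - s) - (t - u)) / A)
    have h9 : |(p - sin p) - (q - sin q)| ≤ 1 / 8 * dist f g :=
      h4.trans (mul_le_mul_of_nonneg_left h1 (by norm_num))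
    linarith
  rw [Prod.dist_eq, max_le_iff]
  constructor
  · rw [Subtype.dist_eq, Real.dist_eq]
    have := key (f n).1 (g n).1 (f n).2 (g n).2 (f (n - 1)).2 (g (n - 1)).2 (f n).1.2 (g n).1.2
      (dist_fst_le f g n) (dist_snd_le f g n) (dist_snd_le f g (n - 1)) 0
    simpa [Phi, c1] using this
  · rw [Subtype.dist_eq, Real.dist_eq]
    exact key (f n).2 (g n).2 (f (n + 1)).1 (g (n + 1)).1 (f n).1 (g n).1 (f n).2.2 (g n).2.2
      (dist_snd_le f g n) (dist_fst_le f g (n + 1)) (dist_fst_le f g n)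
      (2 * π * ((a n : ℕ) : ℝ))

end

instance : Nonempty (ℤ →ᵇ (I2 × I2)) :=
  ⟨const ℤ (⟨0, by constructor <;> norm_num⟩, ⟨0, by constructor <;> norm_num⟩)⟩

/-- Existence of orbits with prescribed digits. -/
theorem code : St_CODE := by
  intro A hA a
  have hA0 : A ≠ 0 := by linarith
  have hc := Phi_contracting A a hA
  obtain ⟨f, hf, -⟩ : ∃ f, Phi A a hA f = f ∧ True :=
    ⟨hc.fixedPoint, hc.fixedPoint_isFixedPt, trivial⟩
  have e1 : ∀ n, c1 A f n = ((f n).1 : ℝ) := by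
    intro n
    have := congrArg (fun g : ℤ →ᵇ (I2 × I2) => ((g n).1 : ℝ)) hf
    exact this
  have e2 : ∀ n, c2 A a f n = ((f n).2 : ℝ) := by
    intro n
    have := congrArg (fun g : ℤ →ᵇ (I2 × I2) => ((g n).2 : ℝ)) hf
    exact this
  refine ⟨fun n => (f n).1, fun n => (f n).2, fun n => abs_le.2 (f n).1.2,
    fun n => abs_le.2 (f n).2.2, fun n => ?_, fun n => ?_⟩
  · have h := e2 n
    rw [c2] at h
    have h2 : sin ((f n).2 : ℝ) =
        (((f (n + 1)).1 : ℝ) - (f n).1 + 2 * π * ((a n : ℕ) : ℝ)) / A := by linarith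
    show ((f (n + 1)).1 : ℝ) = (f n).1 + A * sin (f n).2 - 2 * π * ((a n : ℕ) : ℝ)
    rw [h2]
    field_simp
    ring
  · have h := e1 (n + 1)
    rw [c1, add_sub_cancel_right] at h
    have h2 : sin ((f (n + 1)).1 : ℝ) = (((f (n + 1)).2 : ℝ) - (f n).2) / A := by linarith
    show ((f (n + 1)).2 : ℝ) = (f n).2 + A * sin (f (n + 1)).1
    rw [h2]
    field_simp
    ring

end Pool.Agent.R812.SF
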