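import Mathlib

/-!
# MP_a86bc9_an : the symbolic relation and its clique numbers
-/

namespace Pool.Agent.R812.SF

/-- Symbol sequences; the symbol `5` is the star, the symbols `0..4` are digits mod `5`. -/
abbrev Seq := ℤ → Fin 6

/-- Adjacency of digits in the pentagon. -/
def adj (u v : Fin 6) : Prop :=
  u.val < 5 ∧ v.val < 5 ∧ ((u.val + 1) % 5 = v.val ∨ (v.val + 1) % 5 = u.val)

instance : DecidableRel adj := fun u v => by unfold adj; infer_instance

/-- Doubling a digit mod `5`. -/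
def dbl (u : Fin 6) : Fin 6 := if u.val < 5 then ⟨(2 * u.val) % 5, by omega⟩ else 5

lemma adj_symm : ∀ u v : Fin 6, adj u v → adj v u := by decide
lemma adj_ne : ∀ u v : Fin 6, adj u v → u ≠ v := by decide
lemma adj_or : ∀ u v : Fin 6, u.val < 5 → v.val < 5 → u ≠ v → adj u v ∨ adj (dbl u) (dbl v) := by
  decide
lemma adj_tf : ∀ L : Finset (Fin 6), (∀ u ∈ L, ∀ v ∈ L, u ≠ v → adj u v) → L.card ≤ 2 := by
  decide

/-- The gap length of scale `k`; the blocks of scale `k` have length `4 * gp k`. -/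
def gp (k : ℕ) : ℕ := 100 ^ k

lemma gp_pos (k : ℕ) : 1 ≤ gp k := Nat.one_le_pow _ _ (by norm_num)

lemma gp_succ (k : ℕ) : gp (k + 1) = 100 * gp k := by unfold gp; ring

lemma gp_mono {j k : ℕ} (h : j ≤ k) : gp j ≤ gp k := Nat.pow_le_pow_right (by norm_num) h

lemma le_gp (k : ℕ) : k ≤ gp k := (Nat.lt_pow_self (by norm_num)).le

/-- The shift. -/
def sh (n : ℤ) (x : Seq) : Seq := fun j => x (j + n)

/-- First kind of relation : adjacent digits at `0` and equal past. -/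
def RA (x y : Seq) : Prop := adj (x 0) (y 0) ∧ ∀ j : ℤ, j < 0 → x j = y j

/-- Second kind of relation at scale `k`. -/
def RB (k : ℕ) (x y : Seq) : Prop :=
  adj (x 0) (y 0) ∧ ∃ s : ℕ, s < 4 * gp k ∧ (∀ j : ℤ, -(s : ℤ) ≤ j → j < 0 → x j = y j) ∧
    (∀ j : ℤ, ((-(s : ℤ) - gp k ≤ j ∧ j < -(s : ℤ)) ∨ (4 * gp k - s : ℤ) ≤ j ∨
      j < -(s : ℤ) - gp k - 4 * gp k) → x j = 5 ∧ y j = 5)

/-- The relation. -/
def RR (x y : Seq) : Prop := RA x y ∨ ∃ k, RB k x y

lemma RR_adj {x y : Seq} (h : RR x y) : adj (x 0) (y 0) := by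
  rcases h with h | ⟨k, h⟩
  · exact h.1
  · exact h.1

lemma RR_symm {x y : Seq} (h : RR x y) : RR y x := by
  rcases h with h | ⟨k, h1, s, h2, h3, h4⟩
  · exact Or.inl ⟨adj_symm _ _ h.1, fun j hj => (h.2 j hj).symm⟩
  · refine Or.inr ⟨k, adj_symm _ _ h1, s, h2, fun j hj hj' => (h3 j hj hj').symm, fun j hj => ?_⟩
    exact ⟨(h4 j hj).2, (h4 j hj).1⟩

/-- The finite-window version of `RA`. -/
def RAN (N : ℕ) (x y : Seq) : Prop :=
  adj (x 0) (y 0) ∧ ∀ j : ℤ, -(N : ℤ) ≤ j → j < 0 → x j = y j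

lemma RB_RAN {k N : ℕ} (h : N ≤ gp k) {x y : Seq} (hxy : RB k x y) : RAN N x y := by
  obtain ⟨h1, s, h2, h3, h4⟩ := hxy
  refine ⟨h1, fun j hj hj' => ?_⟩
  by_cases hs : -(s : ℤ) ≤ j
  · exact h3 j hs hj'
  · have := h4 j (Or.inl ⟨by omega, by omega⟩)
    rw [this.1, this.2]

lemma RR_iff (x y : Seq) : RR x y ↔ ∀ N : ℕ, RAN N x y ∨ ∃ k < N, RB k x y := by
  constructor
  · rintro (h | ⟨k, h⟩) N
    · exact Or.inl ⟨h.1, fun j _ hj => h.2 j hj⟩
    · by_cases hk : k < N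
      · exact Or.inr ⟨k, hk, h⟩
      · exact Or.inl (RB_RAN ((not_lt.1 hk).trans (le_gp k)) h)
  · intro h
    by_cases hB : ∃ k, RB k x y
    · exact Or.inr hB
    · left
      have h' : ∀ N, RAN N x y := fun N => by
        rcases h N with h | ⟨k, _, h⟩
        · exact h
        · exact absurd ⟨k, h⟩ hB
      refine ⟨(h' 0).1, fun j hj => ?_⟩
      exact (h' j.natAbs).2 j (by omega) hj

lemma isClosed_adj : IsClosed {p : Seq × Seq | adj (p.1 0) (p.2 0)} := by
  have hc : Continuous (fun p : Seq × Seq => (p.1 0, p.2 0)) := by fun_prop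
  exact (isClosed_discrete {q : Fin 6 × Fin 6 | adj q.1 q.2}).preimage hc

lemma isClosed_eqAt (j : ℤ) : IsClosed {p : Seq × Seq | p.1 j = p.2 j} :=
  isClosed_eq (by fun_prop) (by fun_prop)

lemma isClosed_RAN (N : ℕ) : IsClosed {p : Seq × Seq | RAN N p.1 p.2} := by
  have : {p : Seq × Seq | RAN N p.1 p.2} = {p : Seq × Seq | adj (p.1 0) (p.2 0)} ∩
      ⋂ j : ℤ, ⋂ (_ : -(N : ℤ) ≤ j), ⋂ (_ : j < 0), {p : Seq × Seq | p.1 j = p.2 j} := by
    ext p; simp [RAN]
  rw [this]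
  exact isClosed_adj.inter (isClosed_iInter fun j => isClosed_iInter fun _ =>
    isClosed_iInter fun _ => isClosed_eqAt j)

lemma isClosed_RB (k : ℕ) : IsClosed {p : Seq × Seq | RB k p.1 p.2} := by
  have : {p : Seq × Seq | RB k p.1 p.2} = {p : Seq × Seq | adj (p.1 0) (p.2 0)} ∩
      ⋃ s ∈ {s : ℕ | s < 4 * gp k},
      ((⋂ j : ℤ, ⋂ (_ : -(s : ℤ) ≤ j), ⋂ (_ : j < 0), {p : Seq × Seq | p.1 j = p.2 j}) ∩
      ⋂ j : ℤ, ⋂ (_ : ((-(s : ℤ) - gp k ≤ j ∧ j < -(s : ℤ)) ∨ (4 * gp k - s : ℤ) ≤ j ∨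
      j < -(s : ℤ) - gp k - 4 * gp k)), {p : Seq × Seq | p.1 j = 5 ∧ p.2 j = 5}) := by
    ext p
    simp only [RB, Set.mem_setOf_eq, Set.mem_inter_iff, Set.mem_iUnion, Set.mem_iInter,
      exists_prop]
  rw [this]
  refine isClosed_adj.inter ?_
  refine (Set.finite_lt_nat _).isClosed_biUnion fun s _ => ?_
  refine IsClosed.inter ?_ ?_
  · exact isClosed_iInter fun j => isClosed_iInter fun _ => isClosed_iInter fun _ => isClosed_eqAt j
  · refine isClosed_iInter fun j => isClosed_iInter fun _ => ?_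
    exact (isClosed_eq (by fun_prop) (by fun_prop)).inter
      (isClosed_eq (by fun_prop) (by fun_prop))

lemma isClosed_RR : IsClosed {p : Seq × Seq | RR p.1 p.2} := by
  have : {p : Seq × Seq | RR p.1 p.2} = ⋂ N : ℕ, ({p : Seq × Seq | RAN N p.1 p.2} ∪
      ⋃ k ∈ {k : ℕ | k < N}, {p : Seq × Seq | RB k p.1 p.2}) := by
    ext p
    simp only [Set.mem_setOf_eq, RR_iff p.1 p.2, Set.mem_iInter, Set.mem_union, Set.mem_iUnion,
      exists_prop]
  rw [this]
  refine isClosed_iInter fun N => (isClosed_RAN N).union ?_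
  exact (Set.finite_lt_nat _).isClosed_biUnion fun k _ => isClosed_RB k

/-! ### Lexicographic cliques -/

lemma lex_card (n : ℕ) : ∀ W : Finset (ℕ → Fin 6),
    (∀ x ∈ W, ∀ y ∈ W, x ≠ y → ∃ i < n, (∀ j < i, x j = y j) ∧ adj (x i) (y i)) →
    W.card ≤ 2 ^ n := by
  classical
  induction n with
  | zero =>
    intro W hW
    rw [pow_zero, Finset.card_le_one]
    intro x hx y hy
    by_contra hne
    obtain ⟨i, hi, _⟩ := hW x hx y hy hne
    exact absurd hi (Nat.not_lt_zero _)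
  | succ n ih =>
    intro W hW
    have hL : (W.image (fun x => x 0)).card ≤ 2 := by
      apply adj_tf
      intro u hu v hv huv
      rw [Finset.mem_image] at hu hv
      obtain ⟨x, hx, rfl⟩ := hu
      obtain ⟨y, hy, rfl⟩ := hv
      have hne : x ≠ y := fun h => huv (by rw [h])
      obtain ⟨i, _, h1, h2⟩ := hW x hx y hy hne
      rcases Nat.eq_zero_or_pos i with rfl | hi
      · exact h2
      · exact absurd (h1 0 hi) huv
    have hsum : W.card = ∑ l ∈ W.image (fun x => x 0), (W.filter (fun x => x 0 = l)).card :=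
      Finset.card_eq_sum_card_image _ _
    have hfib : ∀ l ∈ W.image (fun x => x 0), (W.filter (fun x => x 0 = l)).card ≤ 2 ^ n := by
      intro l _
      have hinj : Set.InjOn (fun (x : ℕ → Fin 6) (j : ℕ) => x (j + 1))
          ((W.filter (fun x => x 0 = l) : Finset (ℕ → Fin 6)) : Set (ℕ → Fin 6)) := by
        intro x hx y hy hxy
        rw [Finset.mem_coe, Finset.mem_filter] at hx hy
        funext j
        rcases j with _ | j
        · rw [hx.2, hy.2]
        · exact congrFun hxy j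
      rw [← Finset.card_image_of_injOn hinj]
      apply ih
      intro x' hx' y' hy' hne
      rw [Finset.mem_image] at hx' hy'
      obtain ⟨x, hx, rfl⟩ := hx'
      obtain ⟨y, hy, rfl⟩ := hy'
      rw [Finset.mem_filter] at hx hy
      have hne' : x ≠ y := fun h => hne (by rw [h])
      obtain ⟨i, hi, h1, h2⟩ := hW x hx.1 y hy.1 hne'
      rcases i with _ | i
      · exact absurd (by rw [hx.2, hy.2]) (adj_ne _ _ h2)
      · exact ⟨i, by omega, fun j hj => h1 (j + 1) (by omega), h2⟩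
    calc W.card = _ := hsum
      _ ≤ ∑ _l ∈ W.image (fun x => x 0), 2 ^ n := Finset.sum_le_sum hfib
      _ = (W.image (fun x => x 0)).card * 2 ^ n := by rw [Finset.sum_const, smul_eq_mul]
      _ ≤ 2 * 2 ^ n := Nat.mul_le_mul_right _ hL
      _ = 2 ^ (n + 1) := by ring

/-- A sequence is sparse (at scale `k`) when on the window `[0, 40 g)` it is a star outside an
interval of length `9 g`. -/
def Sparse (k : ℕ) (x : Seq) : Prop :=
  ∃ u : ℤ, -(9 * gp k : ℤ) ≤ u ∧ u < 40 * gp k ∧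
    ∀ i : ℤ, 0 ≤ i → i < 40 * gp k → ¬(u ≤ i ∧ i < u + 9 * gp k) → x i = 5

lemma RB_sparse {k j i : ℕ} (hj : j ≤ k) (hi : i < 40 * gp k) {x y : Seq}
    (h : RB j (sh i x) (sh i y)) : Sparse k x := by
  obtain ⟨_, s, hs, _, h4⟩ := h
  have hg := gp_mono hj
  refine ⟨max (-(9 * gp k : ℤ)) (i - s - 5 * gp j), le_max_left _ _, ?_, ?_⟩
  · rw [max_lt_iff]; constructor <;> omega
  · intro l hl0 hl hl'
    have h5 : (i - s - 5 * gp j : ℤ) ≤ l ∧ l < i - s + 4 * gp j → False := by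
      intro hc
      apply hl'
      refine ⟨?_, ?_⟩
      · rw [max_le_iff]; constructor <;> omega
      · have h6 := le_max_right (-(9 * gp k : ℤ)) (i - s - 5 * gp j)
        omega
    have h7 := h4 (l - i) (by
      by_contra hcon
      push Not at hcon
      apply h5
      constructor <;> omega)
    have := h7.1
    simpa [sh] using this

lemma sparse_card (k : ℕ) (K : Finset Seq) (hK : ∀ x ∈ K, Sparse k x)
    (hd : ∀ x ∈ K, ∀ y ∈ K, x ≠ y → ∃ i : ℕ, i < 40 * gp k ∧ x i ≠ y i) :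
    K.card ≤ 49 * gp k * 6 ^ (9 * gp k) := by
  classical
  have hex : ∀ x : Seq, ∃ u : ℤ, x ∈ K → (-(9 * gp k : ℤ) ≤ u ∧ u < 40 * gp k ∧
    ∀ i : ℤ, 0 ≤ i → i < 40 * gp k → ¬(u ≤ i ∧ i < u + 9 * gp k) → x i = 5) := by
    intro x
    by_cases hx : x ∈ K
    · obtain ⟨u, hu⟩ := hK x hx
      exact ⟨u, fun _ => hu⟩
    · exact ⟨0, fun h => absurd h hx⟩
  choose u hu using hex
  let F : Seq → ℤ × (Fin (9 * gp k) → Fin 6) := fun x => (u x, fun v => x (u x + (v.val : ℤ)))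
  have hinj : Set.InjOn F (K : Set Seq) := by
    intro x hx y hy hxy
    by_contra hne
    obtain ⟨i, hi, hne'⟩ := hd x hx y hy hne
    have h1 : u x = u y := congrArg Prod.fst hxy
    have h2 : (fun v : Fin (9 * gp k) => x (u x + (v.val : ℤ))) =
      fun v => y (u y + (v.val : ℤ)) := congrArg Prod.snd hxy
    apply hne'
    by_cases hin : u x ≤ (i : ℤ) ∧ (i : ℤ) < u x + 9 * gp k
    · have h3 := congrFun h2 ⟨(i - u x : ℤ).toNat, by omega⟩
      simp only at h3
      rw [← h1] at h3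
      have h4 : u x + ((i - u x : ℤ).toNat : ℤ) = i := by omega
      rw [h4] at h3
      exact h3
    · rw [(hu x hx).2.2 i (by omega) (by omega) hin]
      rw [h1] at hin
      rw [(hu y hy).2.2 i (by omega) (by omega) hin]
  have hsub : K.image F ⊆ (Finset.Ico (-(9 * gp k : ℤ)) (40 * gp k)) ×ˢ
      (Finset.univ : Finset (Fin (9 * gp k) → Fin 6)) := by
    intro z hz
    rw [Finset.mem_image] at hz
    obtain ⟨x, hx, rfl⟩ := hz
    rw [Finset.mem_product, Finset.mem_Ico]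
    exact ⟨⟨(hu x hx).1, (hu x hx).2.1⟩, Finset.mem_univ _⟩
  have h1 := Finset.card_le_card hsub
  rw [Finset.card_image_of_injOn hinj, Finset.card_product, Int.card_Ico, Finset.card_univ,
    Fintype.card_fun, Fintype.card_fin, Fintype.card_fin] at h1
  have h2 : ((40 * gp k : ℤ) - -(9 * gp k : ℤ)).toNat = 49 * gp k := by omega
  rw [h2] at h1
  exact h1

lemma arith (g : ℕ) (hg : 1 ≤ g) : 49 * g * 6 ^ (9 * g) ≤ 2 ^ (40 * g) := by
  have h1 : 6 ^ (9 * g) ≤ 2 ^ (24 * g) := by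
    rw [pow_mul, pow_mul]
    exact Nat.pow_le_pow_left (by norm_num) _
  have h2 : g ≤ 2 ^ g := (Nat.lt_pow_self (by norm_num)).le
  calc 49 * g * 6 ^ (9 * g) ≤ 2 ^ 6 * 2 ^ g * 2 ^ (24 * g) :=
        Nat.mul_le_mul (Nat.mul_le_mul (by norm_num) h2) h1
    _ = 2 ^ (6 + g + 24 * g) := by rw [pow_add, pow_add]
    _ ≤ 2 ^ (40 * g) := Nat.pow_le_pow_right (by norm_num) (by omega)

/-- Upper bound for cliques on windows of length at most `40 g`. -/
theorem clique_upper (k : ℕ) (K : Finset Seq)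
    (hK : ∀ x ∈ K, ∀ y ∈ K, x ≠ y → ∃ i : ℕ, i < 40 * gp k ∧ RR (sh i x) (sh i y)) :
    K.card ≤ 2 ^ (40 * gp k + 1) := by
  classical
  have hd : ∀ x ∈ K, ∀ y ∈ K, x ≠ y → ∃ i : ℕ, i < 40 * gp k ∧ x i ≠ y i := by
    intro x hx y hy hne
    obtain ⟨i, hi, h⟩ := hK x hx y hy hne
    refine ⟨i, hi, ?_⟩
    have := adj_ne _ _ (RR_adj h)
    simpa [sh] using this
  have h1 : (K.filter (Sparse k)).card ≤ 2 ^ (40 * gp k) := by
    refine (sparse_card k _ ?_ ?_).trans (arith _ (gp_pos k))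
    · intro x hx; exact (Finset.mem_filter.1 hx).2
    · intro x hx y hy; exact hd x (Finset.mem_filter.1 hx).1 y (Finset.mem_filter.1 hy).1
  have h2 : (K.filter (fun x => ¬ Sparse k x)).card ≤ 2 ^ (40 * gp k) := by
    have hinj : Set.InjOn (fun (x : Seq) (j : ℕ) => x (j : ℤ))
        ((K.filter (fun x => ¬ Sparse k x) : Finset Seq) : Set Seq) := by
      intro x hx y hy hxy
      rw [Finset.mem_coe, Finset.mem_filter] at hx hy
      by_contra hne
      obtain ⟨i, _, h⟩ := hd x hx.1 y hy.1 hne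
      exact h (congrFun hxy i)
    rw [← Finset.card_image_of_injOn hinj]
    apply lex_card
    intro x' hx' y' hy' hne
    rw [Finset.mem_image] at hx' hy'
    obtain ⟨x, hx, rfl⟩ := hx'
    obtain ⟨y, hy, rfl⟩ := hy'
    rw [Finset.mem_filter] at hx hy
    have hne' : x ≠ y := fun h => hne (by rw [h])
    obtain ⟨i, hi, h⟩ := hK x hx.1 y hy.1 hne'
    refine ⟨i, hi, ?_, ?_⟩
    · intro j hj
      rcases h with h | ⟨l, h⟩
      · have := h.2 ((j : ℤ) - i) (by omega)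
        simpa [sh] using this
      · by_cases hl : l ≤ k
        · exact absurd (RB_sparse hl hi h) hx.2
        · have hg : gp (k + 1) ≤ gp l := gp_mono (by omega)
          rw [gp_succ] at hg
          have h3 : RAN (40 * gp k) (sh i x) (sh i y) := RB_RAN (by omega) h
          have := h3.2 ((j : ℤ) - i) (by omega) (by omega)
          simpa [sh] using this
    · have := RR_adj h
      simpa [sh] using this
  have h3 : K.card = (K.filter (Sparse k)).card + (K.filter (fun x => ¬ Sparse k x)).card :=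
    (Finset.card_filter_add_card_filter_not _).symm
  rw [h3, pow_succ]
  omega

/-! ### Large cliques -/

/-- The coded word. -/
def cw (k : ℕ) (w : Fin (4 * gp k) → Fin 5) : Seq := fun j =>
  if h : 0 ≤ j ∧ j < 4 * gp k then Fin.castSucc (w ⟨j.toNat, by omega⟩)
  else if h : 5 * gp k ≤ j ∧ j < 9 * gp k then
    dbl (Fin.castSucc (w ⟨(j - 5 * gp k).toNat, by omega⟩))
  else 5

lemma cw_first (k : ℕ) (w : Fin (4 * gp k) → Fin 5) (i : ℕ) (hi : i < 4 * gp k) :
    cw k w (i : ℤ) = Fin.castSucc (w ⟨i, hi⟩) := by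
  unfold cw
  rw [dif_pos ⟨by omega, by omega⟩]
  congr 1

lemma cw_second (k : ℕ) (w : Fin (4 * gp k) → Fin 5) (i : ℕ) (hi : i < 4 * gp k) :
    cw k w ((i : ℤ) + 5 * gp k) = dbl (Fin.castSucc (w ⟨i, hi⟩)) := by
  unfold cw
  rw [dif_neg (by omega), dif_pos ⟨by omega, by omega⟩]
  congr 3
  ext
  simp

lemma cw_star (k : ℕ) (w : Fin (4 * gp k) → Fin 5) (j : ℤ)
    (h : j < 0 ∨ (4 * gp k ≤ j ∧ j < 5 * gp k) ∨ 9 * gp k ≤ j) : cw k w j = 5 := by
  unfold cw
  rw [dif_neg (by omega), dif_neg (by omega)]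

theorem cw_rel (k : ℕ) (w w' : Fin (4 * gp k) → Fin 5) (hne : w ≠ w') :
    ∃ i : ℕ, i < 9 * gp k ∧ RR (sh i (cw k w)) (sh i (cw k w')) := by
  classical
  have hex : ∃ i : ℕ, ∃ hi : i < 4 * gp k, w ⟨i, hi⟩ ≠ w' ⟨i, hi⟩ := by
    by_contra hcon
    push Not at hcon
    apply hne
    funext ⟨i, hi⟩
    exact hcon i hi
  obtain ⟨hi, hw⟩ := Nat.find_spec hex
  have hmin : ∀ j, j < Nat.find hex → ∀ hj : j < 4 * gp k, w ⟨j, hj⟩ = w' ⟨j, hj⟩ := by
    intro j hj hj'
    by_contra hcon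
    exact Nat.find_min hex hj ⟨hj', hcon⟩
  set i := Nat.find hex with hidef
  have hagree : ∀ j : ℤ, j < i → cw k w j = cw k w' j := by
    intro j hj
    by_cases hj0 : 0 ≤ j
    · obtain ⟨l, rfl⟩ := Int.eq_ofNat_of_zero_le hj0
      have hl : l < i := by exact_mod_cast hj
      have hl' : l < 4 * gp k := by omega
      rw [cw_first k w l hl', cw_first k w' l hl', hmin l hl hl']
    · rw [cw_star k w j (Or.inl (by omega)), cw_star k w' j (Or.inl (by omega))]
  have hc : (Fin.castSucc (w ⟨i, hi⟩) : Fin 6) ≠ Fin.castSucc (w' ⟨i, hi⟩) := by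
    intro h
    exact hw (Fin.castSucc_injective 5 h)
  rcases adj_or _ _ (Fin.castSucc_lt_last _) (Fin.castSucc_lt_last _) hc with h | h
  · refine ⟨i, by omega, Or.inl ⟨?_, ?_⟩⟩
    · simp only [sh, zero_add]
      rw [cw_first k w i hi, cw_first k w' i hi]
      exact h
    · intro j hj
      simp only [sh]
      exact hagree _ (by omega)
  · refine ⟨i + 5 * gp k, by omega, Or.inr ⟨k, ?_, i, hi, ?_, ?_⟩⟩
    · simp only [sh, zero_add]
      push_cast
      rw [cw_second k w i hi, cw_second k w' i hi]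
      exact h
    · intro j hj hj'
      simp only [sh]
      obtain ⟨l, hl⟩ := Int.eq_ofNat_of_zero_le (show 0 ≤ j + i by omega)
      have hl' : l < i := by omega
      have e : j + ((i + 5 * gp k : ℕ) : ℤ) = (l : ℤ) + 5 * gp k := by push_cast; omega
      rw [e, cw_second k w l (by omega), cw_second k w' l (by omega), hmin l hl' (by omega)]
    · intro j hj
      simp only [sh]
      have : j + ((i + 5 * gp k : ℕ) : ℤ) < 0 ∨
        (4 * gp k ≤ j + ((i + 5 * gp k : ℕ) : ℤ) ∧ j + ((i + 5 * gp k : ℕ) : ℤ) < 5 * gp k) ∨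
        9 * gp k ≤ j + ((i + 5 * gp k : ℕ) : ℤ) := by
        push_cast
        omega
      exact ⟨cw_star k w _ this, cw_star k w' _ this⟩

end Pool.Agent.R812.SF
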