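import Pool.Agent.R812.SF.Sep

/-!
# MP_a86bc9_an : assembly, from the flow and the coding
-/

namespace Pool.Agent.R812.SF

open Real Topology Filter
open scoped Manifold

lemma one_le_DT {φ : ℝ → T3 → T3} {D : T3 → T3 → ℝ} {R : Set (T3 × T3)}
    (hc : Continuous (fun p : ℝ × T3 => φ p.1 p.2))
    (hDc : Continuous (fun p : T3 × T3 => D p.1 p.2))
    (hDR : ∀ x y, 1 ≤ D x y ↔ (x, y) ∈ R) {T : ℝ} (hT : 0 ≤ T) (x y : T3) :
    1 ≤ DT φ D T x y ↔ ∃ t ∈ Set.Icc 0 T, (φ t x, φ t y) ∈ R := by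
  have hcont : Continuous (fun t => D (φ t x) (φ t y)) := by
    have h1 : Continuous (fun t : ℝ => φ t x) := hc.comp (by fun_prop : Continuous fun t : ℝ => (t, x))
    have h2 : Continuous (fun t : ℝ => φ t y) := hc.comp (by fun_prop : Continuous fun t : ℝ => (t, y))
    exact hDc.comp (h1.prodMk h2)
  have hcomp : IsCompact ((fun t => D (φ t x) (φ t y)) '' Set.Icc 0 T) :=
    isCompact_Icc.image hcont
  have hne : ((fun t => D (φ t x) (φ t y)) '' Set.Icc 0 T).Nonempty :=
    (Set.nonempty_Icc.2 hT).image _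
  constructor
  · intro h
    obtain ⟨t, ht, hv⟩ := hcomp.sSup_mem hne
    refine ⟨t, ht, (hDR _ _).1 ?_⟩
    change D (φ t x) (φ t y) = sSup _ at hv
    rw [hv]
    exact h
  · rintro ⟨t, ht, hr⟩
    exact ((hDR _ _).2 hr).trans (le_csSup hcomp.bddAbove ⟨t, ht, rfl⟩)

lemma log_five : (1.58 : ℝ) < log 5 := by
  have h1 : (16 : ℝ) * log 2 ≤ 7 * log 5 := by
    have : log ((2 : ℝ) ^ 16) ≤ log ((5 : ℝ) ^ 7) := log_le_log (by norm_num) (by norm_num)
    rw [log_pow, log_pow] at this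
    exact_mod_cast this
  have h2 := log_two_gt_d9
  linarith

/-- The statement proved from the two pieces. -/
theorem main (hflow : St_FLOW) (hcode : St_CODE) : ∃ φ : ℝ → T3 → T3,
    ContMDiff ((𝓘(ℝ, ℝ)).prod IT3) IT3 1 (fun p : ℝ × T3 => φ p.1 p.2) ∧
    (∀ m, φ 0 m = m) ∧ (∀ s t m, φ (s + t) m = φ s (φ t m)) ∧
    ∃ D : T3 → T3 → ℝ, (∀ x y, D x y = 0 ↔ x = y) ∧ (∀ x y, D x y = D y x) ∧
      (∀ x y z, D x z ≤ D x y + D y z) ∧
      (∀ x, (𝓝 x).HasBasis (fun r : ℝ => 0 < r) (fun r => {y | D x y < r})) ∧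
      ∃ ε : ℝ, 0 < ε ∧ (∀ T : ℝ, 0 < T → (sepSizes (DT φ D T) ε).Finite) ∧
        liminf (fun T : ℝ => ((log (sepNum (DT φ D T) ε) / T : ℝ) : EReal)) atTop <
        limsup (fun T : ℝ => ((log (sepNum (DT φ D T) ε) / T : ℝ) : EReal)) atTop := by
  obtain ⟨A, φ, hA, hsm, hφ0, hφa, hφz, hφp⟩ := hflow 128
  have hcd : ∀ a : ℤ → Fin 6, ∃ x y : ℤ → ℝ, Orb A a x y := hcode A hA
  have hc : Continuous (fun p : ℝ × T3 => φ p.1 p.2) := hsm.continuous
  have hne : (RM A).Nonempty := by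
    obtain ⟨S, hS, hrel⟩ := sep_lower (A := A) hφ0 hφa hφp hcd 0 (2 * π * (9 * gp 0)) le_rfl
    have : 1 < S.card := by
      rw [hS]
      exact Nat.one_lt_pow (by have := gp_pos 0; omega) (by norm_num)
    obtain ⟨x, hx, y, hy, hxy⟩ := Finset.one_lt_card.1 this
    obtain ⟨t, _, h⟩ := hrel x hx y hy hxy
    exact ⟨_, h⟩
  obtain ⟨D, hD0, hDs, hDt, hDb, hDR, hDc⟩ :=
    exists_metric (RM A) (isClosed_RM A) RM_symm RM_diag hne
  refine ⟨φ, hsm, hφ0, hφa, D, hD0, hDs, hDt, hDb, 1, one_pos, ?_, ?_⟩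
  · intro T hT
    obtain ⟨k, hk⟩ : ∃ k : ℕ, T < 2 * π * (40 * gp k) := by
      obtain ⟨k, hk⟩ := exists_nat_gt T
      refine ⟨k, hk.trans_le ?_⟩
      have h1 : (k : ℝ) ≤ gp k := by exact_mod_cast le_gp k
      have h2 := Real.pi_gt_three
      have h3 : (0 : ℝ) ≤ gp k := by positivity
      nlinarith
    refine (Set.finite_Iic (2 ^ (40 * gp k + 1))).subset ?_
    rintro n ⟨S, rfl, hS⟩
    refine sep_upper hφ0 hφa hφz hφp k T hk S fun x hx y hy hxy => ?_
    exact (one_le_DT hc hDc hDR hT.le x y).1 (hS x hx y hy hxy)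
  · have h2π : (0 : ℝ) < 2 * π := by positivity
    -- upper bound of the separation number
    have hup : ∀ k : ℕ, ∀ T : ℝ, 0 < T → T < 2 * π * (40 * gp k) →
        sepNum (DT φ D T) 1 ≤ 2 ^ (40 * gp k + 1) := by
      intro k T hT0 hT
      refine csSup_le ⟨0, ∅, rfl, by simp⟩ ?_
      rintro n ⟨S, rfl, hS⟩
      refine sep_upper hφ0 hφa hφz hφp k T hT S fun x hx y hy hxy => ?_
      exact (one_le_DT hc hDc hDR hT0.le x y).1 (hS x hx y hy hxy)
    have hlow : ∀ k : ℕ, 5 ^ (4 * gp k) ≤ sepNum (DT φ D (2 * π * (9 * gp k))) 1 := by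
      intro k
      have hg : (0 : ℝ) < gp k := by exact_mod_cast gp_pos k
      have hT0 : (0 : ℝ) < 2 * π * (9 * gp k) := by positivity
      obtain ⟨S, hS, hrel⟩ := sep_lower (A := A) hφ0 hφa hφp hcd k _ le_rfl
      refine le_csSup ⟨2 ^ (40 * gp k + 1), ?_⟩ ⟨S, hS, fun x hx y hy hxy => ?_⟩
      · rintro n ⟨S, rfl, hS⟩
        refine sep_upper hφ0 hφa hφz hφp k (2 * π * (9 * gp k)) ?_ S fun x hx y hy hxy => ?_
        · apply mul_lt_mul_of_pos_left _ h2π
          linarith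
        · exact (one_le_DT hc hDc hDR hT0.le x y).1 (hS x hx y hy hxy)
      · exact (one_le_DT hc hDc hDR hT0.le x y).2 (hrel x hx y hy hxy)
    have hgt : ∀ B : ℝ, ∃ k : ℕ, 1 ≤ k ∧ B ≤ gp k := by
      intro B
      obtain ⟨k, hk⟩ := exists_nat_gt B
      refine ⟨k + 1, by omega, hk.le.trans ?_⟩
      have h1 : (((k + 1 : ℕ) : ℝ)) ≤ gp (k + 1) := by exact_mod_cast le_gp (k + 1)
      push_cast at h1
      linarith
    have h1 : liminf (fun T : ℝ => ((log (sepNum (DT φ D T) 1) / T : ℝ) : EReal)) atTop ≤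
        ((0.7 / (2 * π) : ℝ) : EReal) := by
      apply liminf_le_of_frequently_le'
      rw [frequently_atTop]
      intro B
      obtain ⟨k, hk1, hk⟩ := hgt (max B 1)
      have hg1 : (100 : ℝ) ≤ gp k := by
        have := gp_mono hk1
        have h2 : gp 1 = 100 := by unfold gp; norm_num
        rw [h2] at this
        exact_mod_cast this
      have hπ := Real.pi_gt_three
      set T : ℝ := 2 * π * (40 * gp k - 1) with hTdef
      have hT0 : 0 < T := by rw [hTdef]; apply mul_pos h2π; linarith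
      refine ⟨T, ?_, ?_⟩
      · have h3 : B ≤ gp k := (le_max_left _ _).trans hk
        have h4 : (gp k : ℝ) ≤ T := by
          rw [hTdef]
          nlinarith
        exact h3.trans h4
      · rw [EReal.coe_le_coe_iff]
        have h3 := hup k T hT0 (by rw [hTdef]; apply mul_lt_mul_of_pos_left _ h2π; linarith)
        have h4 : log (sepNum (DT φ D T) 1 : ℝ) ≤ (40 * gp k + 1) * log 2 := by
          rcases Nat.eq_zero_or_pos (sepNum (DT φ D T) 1) with h0 | h0
          · rw [h0]; simp only [Nat.cast_zero, log_zero]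
            exact mul_nonneg (by positivity) (log_nonneg (by norm_num))
          · have : (sepNum (DT φ D T) 1 : ℝ) ≤ (2 : ℝ) ^ (40 * gp k + 1) := by exact_mod_cast h3
            have h5 := log_le_log (by exact_mod_cast h0) this
            rw [log_pow] at h5
            push_cast at h5
            exact h5
        rw [div_le_div_iff₀ hT0 h2π]
        have h5 := log_two_lt_d9
        have h6 : (40 * (gp k : ℝ) + 1) * log 2 ≤ 0.7 * (40 * gp k - 1) := by nlinarith
        calc log (sepNum (DT φ D T) 1 : ℝ) * (2 * π) ≤ ((40 * gp k + 1) * log 2) * (2 * π) :=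
              mul_le_mul_of_nonneg_right h4 h2π.le
          _ ≤ (0.7 * (40 * gp k - 1)) * (2 * π) := mul_le_mul_of_nonneg_right h6 h2π.le
          _ = 0.7 * T := by rw [hTdef]; ring
    have h2 : ((4 / 9 * log 5 / (2 * π) : ℝ) : EReal) ≤
        limsup (fun T : ℝ => ((log (sepNum (DT φ D T) 1) / T : ℝ) : EReal)) atTop := by
      apply le_limsup_of_frequently_le'
      rw [frequently_atTop]
      intro B
      obtain ⟨k, hk1, hk⟩ := hgt B
      have hg : (0 : ℝ) < gp k := by exact_mod_cast gp_pos k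
      have hπ := Real.pi_gt_three
      have hT0 : (0 : ℝ) < 2 * π * (9 * gp k) := by positivity
      refine ⟨2 * π * (9 * gp k), ?_, ?_⟩
      · refine hk.trans ?_
        nlinarith
      · rw [EReal.coe_le_coe_iff]
        have h3 := hlow k
        have h4 : (4 * gp k) * log 5 ≤ log (sepNum (DT φ D (2 * π * (9 * gp k))) 1 : ℝ) := by
          have : (5 : ℝ) ^ (4 * gp k) ≤ (sepNum (DT φ D (2 * π * (9 * gp k))) 1 : ℝ) := by
            exact_mod_cast h3
          have h5 := log_le_log (by positivity) this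
          rw [log_pow] at h5
          push_cast at h5
          exact h5
        rw [le_div_iff₀ hT0]
        refine le_trans (le_of_eq ?_) h4
        field_simp
    refine lt_of_le_of_lt h1 (lt_of_lt_of_le ?_ h2)
    rw [EReal.coe_lt_coe_iff]
    apply div_lt_div_of_pos_right _ h2π
    have := log_five
    linarith

end Pool.Agent.R812.SF
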