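import Pool.Agent.R812.SF.Span

/-!
# MP_a86bc9_an : spanning numbers, upper and lower bounds
-/

namespace Pool.Agent.R812.SF

open Real Topology

/-- Code of the centres. -/
def cc (k : ℕ) (w : Fin (nk k) → Fin 2) : Seq := fun j =>
  if h : 0 ≤ j ∧ j < nk k then Fin.castLE (by norm_num) (w ⟨j.toNat, by omega⟩)
  else if 0 ≤ j ∧ j < 2 * nk k then 2 else 3

lemma cc_first (k : ℕ) (w : Fin (nk k) → Fin 2) (i : ℕ) (hi : i < nk k) :
    cc k w (i : ℤ) = Fin.castLE (by norm_num) (w ⟨i, hi⟩) := by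
  unfold cc
  rw [dif_pos ⟨by omega, by omega⟩]
  congr 1

lemma cc_second (k : ℕ) (w : Fin (nk k) → Fin 2) (j : ℤ) (h1 : nk k ≤ j) (h2 : j < 2 * nk k) :
    cc k w j = 2 := by
  unfold cc
  rw [dif_neg (by omega), if_pos ⟨by omega, by omega⟩]

lemma cc_out (k : ℕ) (w : Fin (nk k) → Fin 2) (j : ℤ) (h : j < 0 ∨ 2 * nk k ≤ j) :
    cc k w j = 3 := by
  unfold cc
  rw [dif_neg (by omega), if_neg (by omega)]

lemma castLE_01 : ∀ b : Fin 2, (Fin.castLE (by norm_num : 2 ≤ 6) b : Fin 6) = 0 ∨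
    (Fin.castLE (by norm_num : 2 ≤ 6) b : Fin 6) = 1 := by decide

section

variable {A : ℝ} {φ : ℝ → T3 → T3}
  (hφ0 : ∀ m, φ 0 m = m) (hφa : ∀ s t m, φ (s + t) m = φ s (φ t m))
  (hφz : ∀ t m, (φ t m).2.2 = m.2.2 * Circle.exp t)
  (hφp : ∀ x y : ℝ, φ (2 * π) (Circle.exp x, Circle.exp y, 1) =
      (Circle.exp (x + A * sin y), Circle.exp (y + A * sin (x + A * sin y)), 1))
  (hcd : ∀ a : Seq, ∃ x y : ℤ → ℝ, Orb A a x y)

include hφ0 hφa hφz hφp in
/-- The centres never meet `W1`. -/
lemma centre_notMem (k : ℕ) (w : Fin (nk k) → Fin 2) {X Y : ℤ → ℝ} (h : Orb A (cc k w) X Y)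
    (p t : ℝ) : φ t (φ (-p) (pt (X 0) (Y 0))) ∉ W1 A := by
  rintro ⟨a, x, y, h1, h2, h3⟩
  have hz : Circle.exp (t - p) = 1 := by
    have : (φ t (φ (-p) (pt (X 0) (Y 0)))).2.2 = 1 := by rw [h3]; rfl
    rw [hφz, hφz] at this
    have e : (pt (X 0) (Y 0)).2.2 = 1 := rfl
    rw [e, one_mul, ← Circle.exp_add] at this
    rw [← this]; congr 1; ring
  have hz' : Circle.exp (t - p) = Circle.exp 0 := by rw [hz, Circle.exp_zero]
  obtain ⟨m, hm⟩ := Circle.exp_eq_exp.1 hz'
  rw [← hφa] at h3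
  have e : t + -p = 2 * π * m := by rw [zero_add] at hm; linarith
  rw [e, flow_orb hφ0 hφa hφp h m] at h3
  have h4 : a = sh m (cc k w) := by
    apply pt_unique h1 (h.shift m)
    rw [← h3]; simp
  have h5 := h2 (-m - 1)
  rw [h4] at h5
  simp only [sh] at h5
  rw [cc_out k w _ (Or.inl (by omega))] at h5
  rcases h5 with h5 | h5 <;> exact absurd h5 (by decide)

include hφ0 hφa hφz hφp hcd in
theorem span_upper (k : ℕ) (T : ℝ) (hT : T < 2 * π * (2 * nk k)) :
    ∃ S : Finset T3, S.card ≤ 7 * 2 ^ nk k ∧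
      ∀ x, ∃ c ∈ S, ∀ t ∈ Set.Icc 0 T, (φ t c, φ t x) ∉ RS A φ := by
  classical
  choose X Y hXY using hcd
  have hcd' : ∀ a : Seq, ∃ x y : ℤ → ℝ, Orb A a x y := fun a => ⟨_, _, hXY a⟩
  let F : Fin 7 × (Fin (nk k) → Fin 2) → T3 := fun q =>
    φ (-((q.1 : ℕ) : ℝ)) (pt (X (cc k q.2) 0) (Y (cc k q.2) 0))
  refine ⟨Finset.univ.image F, ?_, ?_⟩
  · refine Finset.card_image_le.trans ?_
    rw [Finset.card_univ, Fintype.card_prod, Fintype.card_fun, Fintype.card_fin,
      Fintype.card_fin, Fintype.card_fin]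
  · intro x
    by_cases hx : ∃ t ∈ Set.Icc 0 T, φ t x ∈ W1 A
    · obtain ⟨t1, ht1, a', x', y', hO', hd', he'⟩ := hx
      have h2π : (0 : ℝ) < 2 * π := by positivity
      obtain ⟨t0, ht0a, ht0b, m0, hm0⟩ : ∃ t0 : ℝ, 0 ≤ t0 ∧ t0 < 2 * π ∧
          ∃ m : ℤ, t1 = t0 + m * (2 * π) := by
        refine ⟨toIcoMod h2π 0 t1, ?_, ?_, toIcoDiv h2π 0 t1, ?_⟩
        · exact (toIcoMod_mem_Ico h2π 0 t1).1
        · have := (toIcoMod_mem_Ico h2π 0 t1).2
          rwa [zero_add] at this
        · have := toIcoMod_add_toIcoDiv_zsmul h2π 0 t1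
          rw [zsmul_eq_mul] at this
          exact this.symm
      -- code at time t0
      set a : Seq := sh (-m0) a' with ha
      have had : ∀ j, a j = 0 ∨ a j = 1 := fun j => hd' _
      have hOa : Orb A a (fun j => x' (j + -m0)) (fun j => y' (j + -m0)) := hO'.shift (-m0)
      have hx0 : φ t0 x = pt (x' (0 + -m0)) (y' (0 + -m0)) := by
        have h1 := flow_orb hφ0 hφa hφp hO' (-m0)
        rw [← he', ← hφa] at h1
        have e : 2 * π * ((-m0 : ℤ) : ℝ) + t1 = t0 := by rw [hm0]; push_cast; ring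
        rw [e] at h1
        rw [h1]; simp
      have hzx : x.2.2 * Circle.exp t0 = 1 := by
        rw [← hφz, hx0]; rfl
      -- the centre
      let w : Fin (nk k) → Fin 2 := fun i => if a (i : ℕ) = 0 then 0 else 1
      have hw : ∀ (i : ℕ) (hi : i < nk k), cc k w (i : ℤ) = a (i : ℤ) := by
        intro i hi
        rw [cc_first k w i hi]
        simp only [w]
        rcases had (i : ℤ) with h | h
        · rw [h]; simp
        · rw [h]; simp
      have hp7 : ⌊t0⌋₊ < 7 := by
        rw [Nat.floor_lt ht0a]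
        have := Real.pi_lt_d2
        norm_num
        linarith
      set p : ℕ := ⌊t0⌋₊ with hp
      have hp1 : (p : ℝ) ≤ t0 := Nat.floor_le ht0a
      have hp2 : t0 < p + 1 := Nat.lt_floor_add_one t0
      refine ⟨F (⟨p, hp7⟩, w), Finset.mem_image_of_mem F (Finset.mem_univ _), ?_⟩
      intro t ht hmem
      have hO := hXY (cc k w)
      have hnot : φ t (F (⟨p, hp7⟩, w)) ∉ W1 A := centre_notMem hφ0 hφa hφz hφp k w hO p t
      rcases hmem with hmem | hmem
      · exact hnot hmem.1
      · obtain ⟨hW, hN⟩ := hmem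
        apply hN
        obtain ⟨a'', x'', y'', hO'', hd'', he''⟩ := hW
        change φ t x = pt (x'' 0) (y'' 0) at he''
        have hz : x.2.2 * Circle.exp t = 1 := by rw [← hφz, he'']; rfl
        have hexp : Circle.exp t = Circle.exp t0 := mul_left_cancel (hz.trans hzx.symm)
        obtain ⟨i0, hi0⟩ := Circle.exp_eq_exp.1 hexp
        have hi0' : 0 ≤ i0 := by
          by_contra hcon
          have hcon' : i0 ≤ -1 := by omega
          have h5 : (i0 : ℝ) ≤ -1 := by exact_mod_cast hcon'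
          have h6 : i0 * (2 * π) ≤ -1 * (2 * π) := mul_le_mul_of_nonneg_right h5 h2π.le
          linarith [ht.1]
        obtain ⟨i, rfl⟩ := Int.eq_ofNat_of_zero_le hi0'
        have hi : i < 2 * nk k := by
          have h5 : (i : ℝ) * (2 * π) ≤ T := by
            have := ht.2
            push_cast at hi0
            linarith
          have h6 : (i : ℝ) < 2 * nk k := by
            by_contra hcon
            push Not at hcon
            have : 2 * π * (2 * nk k) ≤ (i : ℝ) * (2 * π) := by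
              rw [mul_comm]; exact mul_le_mul_of_nonneg_right hcon h2π.le
            linarith
          exact_mod_cast h6
        have hti : t = t0 + 2 * π * ((i : ℤ) : ℝ) := by rw [hi0]; ring
        -- position of x at time t
        have hxt : φ t x = pt (x' ((i : ℤ) + -m0)) (y' ((i : ℤ) + -m0)) := by
          rw [hti, add_comm t0, hφa, hx0]
          exact flow_orb hφ0 hφa hφp hOa i
        -- position of the centre at time t
        have hct : φ t (F (⟨p, hp7⟩, w)) =
            φ (t0 - p) (pt (X (cc k w) i) (Y (cc k w) i)) := by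
          simp only [F]
          rw [← hφa, ← flow_orb hφ0 hφa hφp hO i, ← hφa]
          congr 1
          rw [hti]; ring
        have hzc : (φ t (F (⟨p, hp7⟩, w))).2.2 = Circle.exp (t0 - p) := by
          rw [hct, hφz]; simp [pt]
        have harg : Complex.arg ((φ t (F (⟨p, hp7⟩, w))).2.2 : ℂ) = t0 - p := by
          rw [hzc]
          apply Circle.arg_exp
          · have := Real.pi_gt_three; linarith
          · have := Real.pi_gt_three; linarith
        have h3 := Real.pi_gt_three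
        have hmem1 : (φ t x, pt (X (cc k w) i) (Y (cc k w) i)) ∈ UU A φ := by
          rw [hxt]
          by_cases hik : i < nk k
          · left
            refine ⟨a i, had i, ?_, ?_⟩
            · have := II_orb hφ0 hφa hφp hcd' hOa (i : ℤ) 0
              simpa using this
            · have := II_orb hφ0 hφa hφp hcd' hO (i : ℤ) 0
              rw [add_zero, hw i hik] at this
              exact this
          · right
            push Not at hik
            refine ⟨k, i, ⟨hik, hi⟩, ?_, ?_, ?_, ?_⟩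
            · have := II_orb hφ0 hφa hφp hcd' hO (i : ℤ) (-(i : ℤ) - 1)
              rw [cc_out k w _ (Or.inl (by omega))] at this
              exact this
            · have := II_orb hφ0 hφa hφp hcd' hO (i : ℤ) (-(i : ℤ) + (2 * nk k : ℕ))
              rw [cc_out k w _ (Or.inr (by push_cast; omega))] at this
              exact this
            · intro l
              refine ⟨a (l : ℕ), had _, ?_, ?_⟩
              · have := II_orb hφ0 hφa hφp hcd' hOa (i : ℤ) (-(i : ℤ) + (l : ℕ))
                have e : (i : ℤ) + (-(i : ℤ) + (l : ℕ)) = (l : ℕ) := by ring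
                rw [e] at this
                exact this
              · have := II_orb hφ0 hφa hφp hcd' hO (i : ℤ) (-(i : ℤ) + (l : ℕ))
                have e : (i : ℤ) + (-(i : ℤ) + (l : ℕ)) = (l : ℕ) := by ring
                rw [e, hw l l.2] at this
                exact this
            · intro l
              have := II_orb hφ0 hφa hφp hcd' hO (i : ℤ)
                (-(i : ℤ) + ((nk k + (l : ℕ) : ℕ) : ℤ))
              have hl := l.2
              rw [cc_second k w _ (by push_cast; omega) (by push_cast; omega)] at this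
              exact this
        refine ⟨?_, ?_, ?_⟩
        · change ((φ t (F (⟨p, hp7⟩, w))).2.2 : ℂ) ∈ _
          rw [Complex.mem_slitPlane_iff_arg]
          refine ⟨?_, ?_⟩
          · rw [harg]; linarith
          · exact Circle.coe_ne_zero _
        · change |Complex.arg ((φ t (F (⟨p, hp7⟩, w))).2.2 : ℂ)| < 1
          rw [harg, abs_lt]
          constructor <;> linarith
        · change (φ t x, φ (-Complex.arg ((φ t (F (⟨p, hp7⟩, w))).2.2 : ℂ))
            (φ t (F (⟨p, hp7⟩, w)))) ∈ UU A φ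
          rw [harg, hct, ← hφa]
          have e : -(t0 - p) + (t0 - p) = 0 := by ring
          rw [e, hφ0]
          exact hmem1
    · push Not at hx
      refine ⟨F (0, fun _ => 0), Finset.mem_image_of_mem F (Finset.mem_univ _), ?_⟩
      intro t ht hmem
      rcases hmem with hmem | hmem
      · exact centre_notMem hφ0 hφa hφz hφp k _ (hXY _) _ t hmem.1
      · exact hx t ht hmem.1

/-! ### Lower bound -/

/-- The joker structure of scale `k` starting at time `b`. -/
def Str (A : ℝ) (φ : ℝ → T3 → T3) (q : T3) (k : ℕ) (b : ℤ) : Prop :=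
  II A φ q (b - 1) 3 ∧ II A φ q (b + (2 * nk k : ℕ)) 3 ∧
  (∀ l : ℕ, l < nk k → II A φ q (b + l) 0 ∨ II A φ q (b + l) 1) ∧
  (∀ l : ℕ, l < nk k → II A φ q (b + ((nk k + l : ℕ) : ℤ)) 2)

lemma II_inj {q : T3} {j : ℤ} {d d' : Fin 6} (h : II A φ q j d) (h' : II A φ q j d') : d = d' :=
  VV_disj h h'

lemma Str.two {q : T3} {k : ℕ} {b : ℤ} (h : Str A φ q k b) {j : ℤ} (h1 : b + nk k ≤ j)
    (h2 : j < b + 2 * nk k) : II A φ q j 2 := by
  have := h.2.2.2 (j - b - nk k).toNat (by omega)
  have e : b + ((nk k + (j - b - nk k).toNat : ℕ) : ℤ) = j := by push_cast; omega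
  rwa [e] at this

lemma Str.unique {q : T3} {k k' : ℕ} {b b' i : ℤ} (h : Str A φ q k b) (h' : Str A φ q k' b')
    (h1 : b + nk k ≤ i) (h2 : i < b + 2 * nk k) (h1' : b' + nk k' ≤ i)
    (h2' : i < b' + 2 * nk k') : k = k' ∧ b = b' := by
  have key : ∀ {k k' : ℕ} {b b' : ℤ}, Str A φ q k b → Str A φ q k' b' →
      b + nk k ≤ i → i < b + 2 * nk k → b' + nk k' ≤ i → i < b' + 2 * nk k' →
      b + nk k ≤ b' + nk k' ∧ b + 2 * nk k ≥ b' + 2 * nk k' := by
    intro k k' b b' h h' h1 h2 h1' h2'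
    constructor
    · by_contra hcon
      push Not at hcon
      have hpos := nk_pos k
      have h5 : II A φ q (b + nk k - 1) 2 := h'.two (by omega) (by omega)
      have h6 := h.2.2.1 (nk k - 1) (by omega)
      have e : b + ((nk k - 1 : ℕ) : ℤ) = b + nk k - 1 := by push_cast [hpos]; ring
      rw [e] at h6
      rcases h6 with h6 | h6
      · exact absurd (II_inj h5 h6) (by decide)
      · exact absurd (II_inj h5 h6) (by decide)
    · by_contra hcon
      push Not at hcon
      have h5 : II A φ q (b + (2 * nk k : ℕ)) 2 := h'.two (by push_cast; omega) (by push_cast; omega)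
      exact absurd (II_inj h5 h.2.1) (by decide)
  have k1 := key h h' h1 h2 h1' h2'
  have k2 := key h' h h1' h2' h1 h2
  have h3 : nk k = nk k' := by omega
  exact ⟨nk_inj h3, by omega⟩

include hφ0 hφa hφp hcd in
/-- What `U` means for an ordinary coded point. -/
lemma UU_code {a : Seq} {x y : ℤ → ℝ} (h : Orb A a x y) (i : ℕ) (q : T3)
    (hU : (φ (2 * π * (i : ℤ)) (pt (x 0) (y 0)), φ (2 * π * (i : ℤ)) q) ∈ UU A φ) :
    II A φ q i (a i) ∨ ∃ (k : ℕ) (b : ℤ), (b + nk k ≤ i ∧ (i : ℤ) < b + 2 * nk k) ∧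
      Str A φ q k b ∧ ∀ l : ℕ, l < nk k → II A φ q (b + l) (a (b + l)) := by
  have hq : ∀ (j : ℤ) (d : Fin 6), II A φ (φ (2 * π * (i : ℤ)) q) j d ↔ II A φ q (i + j) d := by
    intro j d
    unfold II
    rw [← hφa]
    have e : 2 * π * (j : ℝ) + 2 * π * ((i : ℤ) : ℝ) = 2 * π * (((i : ℤ) + j : ℤ) : ℝ) := by
      push_cast; ring
    rw [e]
  rw [flow_orb hφ0 hφa hφp h i] at hU
  rcases hU with ⟨d, _, h1, h2⟩ | ⟨k, s, ⟨hs1, hs2⟩, h1, h2, h3, h4⟩
  · left
    change II A φ (pt (x i) (y i)) 0 d at h1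
    change II A φ (φ (2 * π * (i : ℤ)) q) 0 d at h2
    rw [II_orb_iff hφ0 hφa hφp hcd h, add_zero] at h1
    rw [hq, add_zero, h1] at h2
    exact h2
  · right
    change II A φ (φ (2 * π * (i : ℤ)) q) _ 3 at h1 h2
    change ∀ l : Fin (nk k), II A φ (φ (2 * π * (i : ℤ)) q) _ 2 at h4
    change ∀ l : Fin (nk k), ∃ d : Fin 6, (d = 0 ∨ d = 1) ∧
      II A φ (pt (x i) (y i)) (-(s : ℤ) + (l : ℕ)) d ∧
      II A φ (φ (2 * π * (i : ℤ)) q) (-(s : ℤ) + (l : ℕ)) d at h3
    refine ⟨k, i - s, ⟨by omega, by omega⟩, ⟨?_, ?_, ?_, ?_⟩, ?_⟩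
    · rw [hq] at h1
      have e : (i : ℤ) + (-(s : ℤ) - 1) = i - s - 1 := by ring
      rwa [e] at h1
    · rw [hq] at h2
      have e : (i : ℤ) + (-(s : ℤ) + (2 * nk k : ℕ)) = i - s + (2 * nk k : ℕ) := by ring
      rwa [e] at h2
    · intro l hl
      obtain ⟨d, hd, _, h5⟩ := h3 ⟨l, hl⟩
      rw [hq] at h5
      have e : (i : ℤ) + (-(s : ℤ) + (l : ℕ)) = i - s + l := by ring
      simp only [e] at h5
      rcases hd with rfl | rfl
      · exact Or.inl h5
      · exact Or.inr h5
    · intro l hl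
      have h5 := h4 ⟨l, hl⟩
      rw [hq] at h5
      have e : (i : ℤ) + (-(s : ℤ) + ((nk k + l : ℕ) : ℤ)) = i - s + ((nk k + l : ℕ) : ℤ) := by
        ring
      simp only [e] at h5
      exact h5
    · intro l hl
      obtain ⟨d, hd, h6, h5⟩ := h3 ⟨l, hl⟩
      rw [hq] at h5
      rw [II_orb_iff hφ0 hφa hφp hcd h] at h6
      have e : (i : ℤ) + (-(s : ℤ) + (l : ℕ)) = i - s + l := by ring
      simp only [e] at h5 h6
      rw [h6] at h5
      exact h5

include hφ0 hφa hφp hcd in
/-- A point determines at least `n` digits of the ordinary codes it follows. -/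
lemma exists_word (k : ℕ) (q : T3) : ∃ (P : Finset ℤ) (w : ℤ → Fin 6), nk (k + 1) ≤ P.card ∧
    ∀ (a : Seq) (x y : ℤ → ℝ), Orb A a x y → (∀ j, a j = 0 ∨ a j = 1) →
      (∀ i : ℕ, i < nk (k + 1) →
        (φ (2 * π * (i : ℤ)) (pt (x 0) (y 0)), φ (2 * π * (i : ℤ)) q) ∈ UU A φ) →
      ∀ p ∈ P, a p = w p := by
  classical
  have hksucc := nk_succ k
  have hkpos := nk_pos k
  by_cases hall : ∀ i : ℕ, i < nk (k + 1) → II A φ q i 0 ∨ II A φ q i 1
  · refine ⟨Finset.Ico 0 (nk (k + 1) : ℤ), fun j => if II A φ q j 0 then 0 else 1, ?_, ?_⟩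
    · rw [Int.card_Ico]; simp
    · intro a x y h _ hU p hp
      rw [Finset.mem_Ico] at hp
      obtain ⟨i, rfl⟩ := Int.eq_ofNat_of_zero_le hp.1
      have hi : i < nk (k + 1) := by exact_mod_cast hp.2
      have hII : II A φ q i (a i) := by
        rcases UU_code hφ0 hφa hφp hcd h i q (hU i hi) with h1 | ⟨k', b, ⟨h1, h2⟩, h3, _⟩
        · exact h1
        · have h4 := h3.two h1 h2
          rcases hall i hi with h5 | h5
          · exact absurd (II_inj h4 h5) (by decide)
          · exact absurd (II_inj h4 h5) (by decide)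
      change a (i : ℤ) = if II A φ q (i : ℤ) 0 then 0 else 1
      split_ifs with h6
      · exact II_inj hII h6
      · rcases hall i hi with h5 | h5
        · exact absurd h5 h6
        · exact II_inj hII h5
  · push Not at hall
    obtain ⟨i, hi, hi0, hi1⟩ := hall
    by_cases hex : ∃ (a : Seq) (x y : ℤ → ℝ), Orb A a x y ∧ (∀ j, a j = 0 ∨ a j = 1) ∧
      (∀ i : ℕ, i < nk (k + 1) →
        (φ (2 * π * (i : ℤ)) (pt (x 0) (y 0)), φ (2 * π * (i : ℤ)) q) ∈ UU A φ)
    · obtain ⟨a₁, x₁, y₁, hO₁, hd₁, hU₁⟩ := hex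
      have hstr : ∀ (a : Seq) (x y : ℤ → ℝ), Orb A a x y → (∀ j, a j = 0 ∨ a j = 1) →
          (∀ i : ℕ, i < nk (k + 1) →
            (φ (2 * π * (i : ℤ)) (pt (x 0) (y 0)), φ (2 * π * (i : ℤ)) q) ∈ UU A φ) →
          ∃ (k' : ℕ) (b : ℤ), (b + nk k' ≤ i ∧ (i : ℤ) < b + 2 * nk k') ∧
          Str A φ q k' b ∧ ∀ l : ℕ, l < nk k' → II A φ q (b + l) (a (b + l)) := by
        intro a x y hO hd hU
        rcases UU_code hφ0 hφa hφp hcd hO i q (hU i hi) with h1 | h1
        · rcases hd i with h2 | h2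
          · rw [h2] at h1; exact absurd h1 hi0
          · rw [h2] at h1; exact absurd h1 hi1
        · exact h1
      obtain ⟨k', b, ⟨hb1, hb2⟩, hS, _⟩ := hstr a₁ x₁ y₁ hO₁ hd₁ hU₁
      -- the scale is large
      have hlarge : nk (k + 1) ≤ nk k' := by
        by_contra hcon
        push Not at hcon
        have hk' : k' ≤ k := by
          by_contra h
          exact absurd (nk_mono (show k + 1 ≤ k' by omega)) (not_le.2 hcon)
        have hk'' := nk_mono hk'
        have hkill : ∀ j : ℕ, j < nk (k + 1) → II A φ q j 3 → False := by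
          intro j hj h3
          rcases UU_code hφ0 hφa hφp hcd hO₁ j q (hU₁ j hj) with h1 | ⟨k'', b', ⟨h1, h2⟩, h4, _⟩
          · rcases hd₁ j with h2 | h2
            · rw [h2] at h1; exact absurd (II_inj h1 h3) (by decide)
            · rw [h2] at h1; exact absurd (II_inj h1 h3) (by decide)
          · exact absurd (II_inj (h4.two h1 h2) h3) (by decide)
        by_cases hb : 0 ≤ b - 1
        · obtain ⟨j, hj⟩ := Int.eq_ofNat_of_zero_le hb
          refine hkill j (by omega) ?_
          have := hS.1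
          rw [hj] at this
          exact this
        · obtain ⟨j, hj⟩ := Int.eq_ofNat_of_zero_le (show 0 ≤ b + (2 * nk k' : ℕ) by
            push_cast; omega)
          refine hkill j (by push_cast at hj; omega) ?_
          have := hS.2.1
          rw [hj] at this
          exact this
      refine ⟨Finset.Ico b (b + nk k'), fun j => if II A φ q j 0 then 0 else 1, ?_, ?_⟩
      · rw [Int.card_Ico]
        have : (b + nk k' - b).toNat = nk k' := by omega
        rw [this]; exact hlarge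
      · intro a x y hO hd hU p hp
        obtain ⟨k'', b', ⟨h1, h2⟩, hS', hm⟩ := hstr a x y hO hd hU
        obtain ⟨hk, hb⟩ := hS'.unique hS h1 h2 hb1 hb2
        subst hk
        subst hb
        rw [Finset.mem_Ico] at hp
        obtain ⟨l, hl⟩ := Int.eq_ofNat_of_zero_le (show 0 ≤ p - b' by omega)
        have hp' : p = b' + l := by omega
        have h3 := hm l (by omega)
        rw [← hp'] at h3
        change a p = if II A φ q p 0 then 0 else 1
        rcases hS'.2.2.1 l (by omega) with h4 | h4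
        · rw [← hp'] at h4
          rw [if_pos h4]
          exact II_inj h3 h4
        · rw [← hp'] at h4
          have h6 : ¬ II A φ q p 0 := fun h5 => absurd (II_inj h5 h4) (by decide)
          rw [if_neg h6]
          exact II_inj h3 h4
    · refine ⟨Finset.Ico 0 (nk (k + 1) : ℤ), fun _ => 0, by rw [Int.card_Ico]; simp, ?_⟩
      intro a x y hO hd hU
      exact absurd ⟨a, x, y, hO, hd, hU⟩ hex

include hφ0 hφa hφz hφp hcd in
theorem span_lower (k : ℕ) (T : ℝ) (hT : 2 * π * nk (k + 1) ≤ T) (S : Finset T3)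
    (hS : ∀ x, ∃ c ∈ S, ∀ t ∈ Set.Icc 0 T, (φ t c, φ t x) ∉ RS A φ) :
    2 ^ nk (k + 1) ≤ S.card := by
  classical
  by_contra hcon
  push Not at hcon
  have hword := fun q : T3 => exists_word hφ0 hφa hφp hcd k q
  choose P w hP hw using hword
  let qq : T3 → T3 := fun c => φ (-Complex.arg (c.2.2 : ℂ)) c
  obtain ⟨f, hf⟩ := exists_avoid S (nk (k + 1)) hcon (fun c => P (qq c))
    (fun c j => if w (qq c) j = 0 then 0 else 1) (fun c _ => hP (qq c))
  let a : Seq := fun j => Fin.castLE (by norm_num) (f j)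
  have ha : ∀ j, a j = 0 ∨ a j = 1 := fun j => castLE_01 (f j)
  obtain ⟨x, y, hO⟩ := hcd a
  obtain ⟨c, hcS, hc⟩ := hS (pt (x 0) (y 0))
  have h2π : (0 : ℝ) < 2 * π := by positivity
  have hUall : ∀ i : ℕ, i < nk (k + 1) →
      (φ (2 * π * (i : ℤ)) (pt (x 0) (y 0)), φ (2 * π * (i : ℤ)) (qq c)) ∈ UU A φ := by
    intro i hi
    have ht : 2 * π * ((i : ℤ) : ℝ) ∈ Set.Icc 0 T := by
      refine ⟨by positivity, le_trans ?_ hT⟩
      apply mul_le_mul_of_nonneg_left _ h2π.le
      have : (i : ℝ) < nk (k + 1) := by exact_mod_cast hi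
      simpa using this.le
    have h1 := hc _ ht
    have h2 : (φ (2 * π * (i : ℤ)) (pt (x 0) (y 0)), φ (2 * π * (i : ℤ)) c) ∉ R2 A φ := by
      intro h
      exact h1 (Or.inr h)
    have h3 : φ (2 * π * (i : ℤ)) (pt (x 0) (y 0)) ∈ W1 A := by
      rw [flow_orb hφ0 hφa hφp hO i]
      exact ⟨_, _, _, hO.shift i, fun j => ha _, by simp⟩
    have h4 : (φ (2 * π * (i : ℤ)) (pt (x 0) (y 0)), φ (2 * π * (i : ℤ)) c) ∈ NN A φ := by
      by_contra h
      exact h2 ⟨h3, h⟩
    obtain ⟨_, _, h7⟩ := h4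
    have hz : (φ (2 * π * (i : ℤ)) c).2.2 = c.2.2 := by
      rw [hφz]
      have : Circle.exp (2 * π * ((i : ℤ) : ℝ)) = 1 := by
        rw [← Circle.exp_zero]
        exact Circle.exp_eq_exp.2 ⟨i, by ring⟩
      rw [this, mul_one]
    change (φ (2 * π * (i : ℤ)) (pt (x 0) (y 0)),
      φ (-Complex.arg ((φ (2 * π * (i : ℤ)) c).2.2 : ℂ)) (φ (2 * π * (i : ℤ)) c)) ∈ UU A φ at h7
    rw [hz, ← hφa] at h7
    simp only [qq]
    rw [← hφa]
    rw [add_comm] at h7
    exact h7
  obtain ⟨p, hp, hne⟩ := hf c hcS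
  apply hne
  have h1 := hw (qq c) a x y hO ha hUall p hp
  have key : ∀ b : Fin 2, b = if (Fin.castLE (by norm_num : 2 ≤ 6) b : Fin 6) = 0 then 0 else 1 := by
    decide
  rw [← h1]
  exact key (f p)

end

end Pool.Agent.R812.SF
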