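import Pool.Agent.R812.SF.Main
import Pool.Agent.R812.SF.Span2

/-!
# MP_a86bc9_an : assembly for the spanning numbers
-/

namespace Pool.Agent.R812.SF

open Real Topology Filter
open scoped Manifold

/-- Sizes of the `ε`-spanning finite sets for a function `ρ`. -/
def spanSizes {M : Type*} (ρ : M → M → ℝ) (ε : ℝ) : Set ℕ :=
  {n | ∃ S : Finset M, S.card = n ∧ ∀ x, ∃ c ∈ S, ρ c x < ε}

/-- The spanning number. -/
noncomputable def spanNum {M : Type*} (ρ : M → M → ℝ) (ε : ℝ) : ℕ := sInf (spanSizes ρ ε)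

/-- The statement on spanning numbers proved from the two pieces. -/
theorem main2 (hflow : St_FLOW) (hcode : St_CODE) : ∃ φ : ℝ → T3 → T3,
    ContMDiff ((𝓘(ℝ, ℝ)).prod IT3) IT3 1 (fun p : ℝ × T3 => φ p.1 p.2) ∧
    (∀ m, φ 0 m = m) ∧ (∀ s t m, φ (s + t) m = φ s (φ t m)) ∧
    ∃ D : T3 → T3 → ℝ, (∀ x y, D x y = 0 ↔ x = y) ∧ (∀ x y, D x y = D y x) ∧
      (∀ x y z, D x z ≤ D x y + D y z) ∧
      (∀ x, (𝓝 x).HasBasis (fun r : ℝ => 0 < r) (fun r => {y | D x y < r})) ∧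
      ∃ ε : ℝ, 0 < ε ∧ (∀ T : ℝ, 0 < T → (spanSizes (DT φ D T) ε).Nonempty) ∧
        liminf (fun T : ℝ => ((log (spanNum (DT φ D T) ε) / T : ℝ) : EReal)) atTop <
        limsup (fun T : ℝ => ((log (spanNum (DT φ D T) ε) / T : ℝ) : EReal)) atTop := by
  obtain ⟨A, φ, hA, hsm, hφ0, hφa, hφz, hφp⟩ := hflow 128
  have hcd : ∀ a : Seq, ∃ x y : ℤ → ℝ, Orb A a x y := hcode A hA
  have hc : Continuous (fun p : ℝ × T3 => φ p.1 p.2) := hsm.continuous
  have hne : (RS A φ).Nonempty := by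
    by_contra hemp
    rw [Set.not_nonempty_iff_eq_empty] at hemp
    have h1 := span_lower hφ0 hφa hφz hφp hcd 0 (2 * π * nk (0 + 1)) le_rfl
      {(1, 1, 1)} (fun x => ⟨_, Finset.mem_singleton_self _, fun t _ => by rw [hemp]; simp⟩)
    rw [Finset.card_singleton] at h1
    have h2 : 1 < 2 ^ nk (0 + 1) :=
      Nat.one_lt_pow (by have := nk_pos (0 + 1); omega) (by norm_num)
    omega
  obtain ⟨D, hD0, hDs, hDt, hDb, hDR, hDc⟩ :=
    exists_metric (RS A φ) (isClosed_RS hc) RS_symm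
      (RS_diag hφ0 hφa hφp hcd) hne
  have hlt : ∀ T : ℝ, 0 < T → ∀ x y : T3, DT φ D T x y < 1 ↔
      ∀ t ∈ Set.Icc 0 T, (φ t x, φ t y) ∉ RS A φ := by
    intro T hT x y
    rw [← not_le, one_le_DT hc hDc hDR hT.le x y]
    push Not
    rfl
  have h2π : (0 : ℝ) < 2 * π := by positivity
  have hup : ∀ k : ℕ, ∀ T : ℝ, 0 < T → T < 2 * π * (2 * nk k) →
      ∃ n ∈ spanSizes (DT φ D T) 1, n ≤ 7 * 2 ^ nk k := by
    intro k T hT0 hT
    obtain ⟨S, hS1, hS2⟩ := span_upper hφ0 hφa hφz hφp hcd k T hT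
    refine ⟨S.card, ⟨S, rfl, fun x => ?_⟩, hS1⟩
    obtain ⟨c, hcS, h⟩ := hS2 x
    exact ⟨c, hcS, (hlt T hT0 c x).2 h⟩
  have hnonempty : ∀ T : ℝ, 0 < T → (spanSizes (DT φ D T) 1).Nonempty := by
    intro T hT
    obtain ⟨k, hk⟩ : ∃ k : ℕ, T < 2 * π * (2 * nk k) := by
      obtain ⟨k, hk⟩ := exists_nat_gt T
      refine ⟨k, hk.trans_le ?_⟩
      have h1 : (k : ℝ) ≤ nk k := by exact_mod_cast le_nk k
      have h2 := Real.pi_gt_three
      have h3 : (0 : ℝ) ≤ nk k := by positivity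
      nlinarith
    obtain ⟨n, hn, _⟩ := hup k T hT hk
    exact ⟨n, hn⟩
  refine ⟨φ, hsm, hφ0, hφa, D, hD0, hDs, hDt, hDb, 1, one_pos, hnonempty, ?_⟩
  have hlow : ∀ k : ℕ, ∀ T : ℝ, 2 * π * nk (k + 1) ≤ T →
      2 ^ nk (k + 1) ≤ spanNum (DT φ D T) 1 := by
    intro k T hT
    have hg : (0 : ℝ) < nk (k + 1) := by exact_mod_cast nk_pos (k + 1)
    have hT0 : 0 < T := lt_of_lt_of_le (by positivity) hT
    refine le_csInf (hnonempty T hT0) ?_
    rintro n ⟨S, rfl, hS⟩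
    refine span_lower hφ0 hφa hφz hφp hcd k T hT S fun x => ?_
    obtain ⟨c, hcS, h⟩ := hS x
    exact ⟨c, hcS, (hlt T hT0 c x).1 h⟩
  have hgt : ∀ B : ℝ, ∃ k : ℕ, 2 ≤ k ∧ B ≤ nk k := by
    intro B
    obtain ⟨k, hk⟩ := exists_nat_gt B
    refine ⟨k + 2, by omega, hk.le.trans ?_⟩
    have h1 : (((k + 2 : ℕ) : ℝ)) ≤ nk (k + 2) := by exact_mod_cast le_nk (k + 2)
    push_cast at h1
    linarith
  have hlog2 := log_two_gt_d9
  have hlog2' := log_two_lt_d9
  have h1 : liminf (fun T : ℝ => ((log (spanNum (DT φ D T) 1) / T : ℝ) : EReal)) atTop ≤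
      ((0.6 / (2 * π) : ℝ) : EReal) := by
    apply liminf_le_of_frequently_le'
    rw [frequently_atTop]
    intro B
    obtain ⟨k, hk1, hk⟩ := hgt (max B 1)
    have hg1 : (16 : ℝ) ≤ nk k := by
      have := nk_mono hk1
      have h2 : nk 2 = 16 := by unfold nk; norm_num
      rw [h2] at this
      exact_mod_cast this
    have hπ := Real.pi_gt_three
    set T : ℝ := 2 * π * (2 * nk k - 1) with hTdef
    have hT0 : 0 < T := by rw [hTdef]; apply mul_pos h2π; linarith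
    refine ⟨T, ?_, ?_⟩
    · have h3 : B ≤ nk k := (le_max_left _ _).trans hk
      have h4 : (nk k : ℝ) ≤ T := by
        rw [hTdef]
        nlinarith
      exact h3.trans h4
    · rw [EReal.coe_le_coe_iff]
      obtain ⟨n, hn1, hn2⟩ := hup k T hT0
        (by rw [hTdef]; apply mul_lt_mul_of_pos_left _ h2π; linarith)
      have h3 : spanNum (DT φ D T) 1 ≤ 7 * 2 ^ nk k := (Nat.sInf_le hn1).trans hn2
      have h4 : log (spanNum (DT φ D T) 1 : ℝ) ≤ 3 * log 2 + nk k * log 2 := by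
        rcases Nat.eq_zero_or_pos (spanNum (DT φ D T) 1) with h0 | h0
        · rw [h0]; simp only [Nat.cast_zero, log_zero]
          positivity
        · have h6 : (spanNum (DT φ D T) 1 : ℝ) ≤ (2 : ℝ) ^ (3 + nk k) := by
            have : spanNum (DT φ D T) 1 ≤ 2 ^ (3 + nk k) := by
              rw [pow_add]
              exact h3.trans (Nat.mul_le_mul_right _ (by norm_num))
            exact_mod_cast this
          have h5 := log_le_log (by exact_mod_cast h0) h6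
          rw [log_pow] at h5
          push_cast at h5
          linarith
      rw [div_le_div_iff₀ hT0 h2π]
      have h6 : 3 * log 2 + nk k * log 2 ≤ 0.6 * (2 * nk k - 1) := by nlinarith
      calc log (spanNum (DT φ D T) 1 : ℝ) * (2 * π) ≤ (3 * log 2 + nk k * log 2) * (2 * π) :=
            mul_le_mul_of_nonneg_right h4 h2π.le
        _ ≤ (0.6 * (2 * nk k - 1)) * (2 * π) := mul_le_mul_of_nonneg_right h6 h2π.le
        _ = 0.6 * T := by rw [hTdef]; ring
  have h2 : ((log 2 / (2 * π) : ℝ) : EReal) ≤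
      limsup (fun T : ℝ => ((log (spanNum (DT φ D T) 1) / T : ℝ) : EReal)) atTop := by
    apply le_limsup_of_frequently_le'
    rw [frequently_atTop]
    intro B
    obtain ⟨k, hk1, hk⟩ := hgt B
    obtain ⟨l, rfl⟩ : ∃ l, k = l + 1 := ⟨k - 1, by omega⟩
    have hg : (0 : ℝ) < nk (l + 1) := by exact_mod_cast nk_pos (l + 1)
    have hπ := Real.pi_gt_three
    have hT0 : (0 : ℝ) < 2 * π * nk (l + 1) := by positivity
    refine ⟨2 * π * nk (l + 1), ?_, ?_⟩
    · refine hk.trans ?_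
      nlinarith
    · rw [EReal.coe_le_coe_iff]
      have h3 := hlow l _ le_rfl
      have h4 : nk (l + 1) * log 2 ≤ log (spanNum (DT φ D (2 * π * nk (l + 1))) 1 : ℝ) := by
        have : (2 : ℝ) ^ nk (l + 1) ≤ (spanNum (DT φ D (2 * π * nk (l + 1))) 1 : ℝ) := by
          exact_mod_cast h3
        have h5 := log_le_log (by positivity) this
        rw [log_pow] at h5
        exact h5
      rw [le_div_iff₀ hT0]
      refine le_trans (le_of_eq ?_) h4
      field_simp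
  refine lt_of_le_of_lt h1 (lt_of_lt_of_le ?_ h2)
  rw [EReal.coe_lt_coe_iff]
  apply div_lt_div_of_pos_right _ h2π
  linarith

end Pool.Agent.R812.SF
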