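import Mathlib

/-!
# MP_a86bc9_an : a metric with prescribed `1`-far relation
-/

namespace Pool.Agent.R812.SF

open Topology

/-- On a compact metric space, every closed symmetric relation off the diagonal is the relation
`1 ≤ D` of a metric `D` inducing the topology. -/
theorem exists_metric {M : Type*} [MetricSpace M] [CompactSpace M] (R : Set (M × M))
    (hR : IsClosed R) (hs : ∀ p ∈ R, (p.2, p.1) ∈ R) (hd : ∀ x, (x, x) ∉ R)
    (hne : R.Nonempty) :
    ∃ D : M → M → ℝ, (∀ x y, D x y = 0 ↔ x = y) ∧ (∀ x y, D x y = D y x) ∧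
      (∀ x y z, D x z ≤ D x y + D y z) ∧
      (∀ x, (𝓝 x).HasBasis (fun r : ℝ => 0 < r) (fun r => {y | D x y < r})) ∧
      (∀ x y, 1 ≤ D x y ↔ (x, y) ∈ R) ∧ Continuous (fun p : M × M => D p.1 p.2) := by
  have hcomp : IsCompact R := hR.isCompact
  obtain ⟨p, hp, hmin⟩ := hcomp.exists_isMinOn hne
    (f := fun q : M × M => dist q.1 q.2) (by fun_prop)
  set δ := dist p.1 p.2 with hδ
  have hδ0 : 0 < δ := by
    rw [hδ, dist_pos]
    intro h
    apply hd p.1
    have : p = (p.1, p.1) := by ext1 <;> simp [h]
    rw [← this]; exact hp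
  have hδR : ∀ x y, (x, y) ∈ R → δ ≤ dist x y := fun x y h => hmin h
  set K := 1 / δ with hK
  have hK0 : 0 < K := by positivity
  let ρ : M → M → ℝ := fun x y => Metric.infDist (x, y) R
  have hρ1 : ∀ x y z, ρ x y ≤ ρ x z + dist y z := by
    intro x y z
    have := Metric.infDist_le_infDist_add_dist (s := R) (x := (x, y)) (y := (x, z))
    simpa [ρ, Prod.dist_eq] using this
  have hρs : ∀ x y, ρ x y = ρ y x := by
    have key : ∀ x y, ρ x y ≤ ρ y x := by
      intro x y
      refine (Metric.le_infDist hne).2 fun q hq => ?_
      have h1 : Metric.infDist (x, y) R ≤ dist (x, y) (q.2, q.1) :=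
        Metric.infDist_le_dist_of_mem (hs q hq)
      refine h1.trans (le_of_eq ?_)
      rw [Prod.dist_eq, Prod.dist_eq]
      exact max_comm _ _
    intro x y
    exact le_antisymm (key x y) (key y x)
  let f : M → M → ℝ := fun x y => max (1 / 2) (1 - K * ρ x y)
  have hfhalf : ∀ x y, 1 / 2 ≤ f x y := fun x y => le_max_left _ _
  have hf1 : ∀ x y, f x y ≤ 1 := by
    intro x y
    refine max_le (by norm_num) ?_
    have : 0 ≤ K * ρ x y := mul_nonneg hK0.le Metric.infDist_nonneg
    linarith
  have hfs : ∀ x y, f x y = f y x := fun x y => by simp only [f, hρs x y]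
  have hfl : ∀ x y z, f x y ≤ f x z + K * dist y z := by
    intro x y z
    refine max_le ?_ ?_
    · have := hfhalf x z
      have h2 : 0 ≤ K * dist y z := mul_nonneg hK0.le dist_nonneg
      linarith
    · have h1 : 1 - K * ρ x z ≤ f x z := le_max_right _ _
      have h2 := hρ1 x z y
      have h3 : K * ρ x z ≤ K * (ρ x y + dist z y) := mul_le_mul_of_nonneg_left h2 hK0.le
      rw [dist_comm z y] at h3
      linarith [h3]
  let D : M → M → ℝ := fun x y => min (K * dist x y) (f x y)
  have hD0 : ∀ x y, 0 ≤ D x y := fun x y =>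
    le_min (mul_nonneg hK0.le dist_nonneg) ((by norm_num : (0 : ℝ) ≤ 1 / 2).trans (hfhalf x y))
  have hDs : ∀ x y, D x y = D y x := fun x y => by simp only [D, hfs x y, dist_comm x y]
  have hDK : ∀ x y, D x y ≤ K * dist x y := fun x y => min_le_left _ _
  have hDlt : ∀ x y, D x y < 1 / 2 → D x y = K * dist x y := by
    intro x y h
    simp only [D] at h ⊢
    rcases min_choice (K * dist x y) (f x y) with h' | h'
    · exact h'
    · rw [h'] at h
      exact absurd h (not_lt.2 (hfhalf x y))
  have hstep : ∀ x y z, D y z < 1 / 2 → D x z ≤ D x y + D y z := by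
    intro x y z h
    rw [hDlt y z h]
    simp only [D]
    rw [← min_add_add_right]
    refine le_min ((min_le_left _ _).trans ?_) ((min_le_right _ _).trans ?_)
    · rw [← mul_add]; exact mul_le_mul_of_nonneg_left (dist_triangle _ _ _) hK0.le
    · have := hfl x z y
      rwa [dist_comm z y] at this
  have hDt : ∀ x y z, D x z ≤ D x y + D y z := by
    intro x y z
    by_cases h1 : D y z < 1 / 2
    · exact hstep x y z h1
    · by_cases h2 : D x y < 1 / 2
      · have := hstep z y x (by rw [hDs y x]; exact h2)
        rw [hDs z x, hDs z y, hDs y x] at this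
        linarith
      · push Not at h1 h2
        have : D x z ≤ 1 := (min_le_right _ _).trans (hf1 x z)
        linarith
  refine ⟨D, ?_, hDs, hDt, ?_, ?_, ?_⟩
  · intro x y
    constructor
    · intro h
      have h1 : D x y < 1 / 2 := by rw [h]; norm_num
      rw [hDlt x y h1] at h
      have h2 : dist x y = 0 := by
        rcases mul_eq_zero.1 h with h | h
        · exact absurd h hK0.ne'
        · exact h
      exact dist_eq_zero.1 h2
    · rintro rfl
      refine le_antisymm ?_ (hD0 x x)
      have := hDK x x
      rwa [dist_self, mul_zero] at this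
  · intro x
    refine Metric.nhds_basis_ball.to_hasBasis ?_ ?_
    · intro e he
      refine ⟨min (1 / 2) (K * e), lt_min (by norm_num) (by positivity), ?_⟩
      intro y hy
      simp only [Set.mem_ofPred_eq, lt_min_iff] at hy
      rw [hDlt x y hy.1] at hy
      rw [Metric.mem_ball, dist_comm]
      exact lt_of_mul_lt_mul_left hy.2 hK0.le
    · intro r hr
      refine ⟨r / K, by positivity, ?_⟩
      intro y hy
      rw [Metric.mem_ball, dist_comm, lt_div_iff₀ hK0] at hy
      simp only [Set.mem_ofPred_eq]
      have := hDK x y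
      linarith [mul_comm (dist x y) K]
  · intro x y
    constructor
    · intro h
      have h1 : 1 ≤ f x y := h.trans (min_le_right _ _)
      have h2 : 1 ≤ 1 - K * ρ x y := by
        rcases le_max_iff.1 h1 with h | h
        · norm_num at h
        · exact h
      have h3 : ρ x y ≤ 0 := by
        by_contra hcon
        push Not at hcon
        have : 0 < K * ρ x y := mul_pos hK0 hcon
        linarith
      have h4 : Metric.infDist (x, y) R = 0 := le_antisymm h3 Metric.infDist_nonneg
      exact (hR.mem_iff_infDist_zero hne).2 h4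
    · intro h
      refine le_min ?_ ?_
      · have := hδR x y h
        rw [hK, one_div, ← div_eq_inv_mul, le_div_iff₀ hδ0, one_mul]
        exact this
      · have : ρ x y = 0 := (hR.mem_iff_infDist_zero hne).1 h
        refine le_max_of_le_right ?_
        rw [this]; simp
  · have hρc : Continuous (fun p : M × M => ρ p.1 p.2) := by
      simpa [ρ] using (Metric.continuous_infDist_pt R)
    simp only [D, f]
    fun_prop

end Pool.Agent.R812.SF
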