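import Pool.Agent.R812.SF.Stmts
import Pool.Agent.R812.SF.Comb

/-!
# MP_a86bc9_an : coded orbits
-/

namespace Pool.Agent.R812.SF

open Real Topology

/-- `(x, y)` is the orbit of the shear map with digit sequence `a`. -/
def Orb (A : ℝ) (a : Seq) (x y : ℤ → ℝ) : Prop :=
  (∀ n, |x n| ≤ 1 / 2) ∧ (∀ n, |y n| ≤ 1 / 2) ∧
    (∀ n, x (n + 1) = x n + A * sin (y n) - 2 * π * (a n : ℕ)) ∧
    (∀ n, y (n + 1) = y n + A * sin (x (n + 1)))

/-- Points of the section. -/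
noncomputable def pt (x y : ℝ) : T3 := (Circle.exp x, Circle.exp y, 1)

lemma Orb.shift {A : ℝ} {a : Seq} {x y : ℤ → ℝ} (h : Orb A a x y) (n : ℤ) :
    Orb A (sh n a) (fun j => x (j + n)) (fun j => y (j + n)) := by
  obtain ⟨h1, h2, h3, h4⟩ := h
  refine ⟨fun j => h1 _, fun j => h2 _, fun j => ?_, fun j => ?_⟩
  · have := h3 (j + n)
    have e : j + 1 + n = j + n + 1 := by ring
    simp only [sh, e]
    exact this
  · have := h4 (j + n)
    have e : j + 1 + n = j + n + 1 := by ring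
    simp only [e]
    exact this

lemma digit_eq {a b : Fin 6} {u v : ℝ} (hu : |u| ≤ 1 / 2) (hv : |v| ≤ 1 / 2)
    (h : u - v = 2 * π * (b : ℕ) - 2 * π * (a : ℕ)) : a = b := by
  by_contra hne
  obtain ⟨z, hz⟩ : ∃ z : ℤ, z = ((b : ℕ) : ℤ) - ((a : ℕ) : ℤ) := ⟨_, rfl⟩
  have hne' : z ≠ 0 := by
    intro h0
    apply hne
    ext
    omega
  have h1 : (1 : ℝ) ≤ |(z : ℝ)| := by
    rw [← Int.cast_abs]
    exact_mod_cast Int.one_le_abs hne'
  have h2 : u - v = 2 * π * (z : ℝ) := by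
    rw [h, hz]; push_cast; ring
  have h3 : |u - v| ≤ 1 := by
    have := abs_sub u v
    linarith
  rw [h2, abs_mul, abs_of_pos (by positivity : (0 : ℝ) < 2 * π)] at h3
  have h4 := Real.pi_gt_three
  nlinarith

lemma orb_unique {A : ℝ} {a a' : Seq} {x y x' y' : ℤ → ℝ} (h : Orb A a x y)
    (h' : Orb A a' x' y') (hx : x 0 = x' 0) (hy : y 0 = y' 0) :
    (∀ n, x n = x' n ∧ y n = y' n) ∧ a = a' := by
  obtain ⟨h1, h2, h3, h4⟩ := h
  obtain ⟨h1', h2', h3', h4'⟩ := h'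
  have key : ∀ n, x n = x' n ∧ y n = y' n := by
    intro n
    induction n using Int.induction_on with
    | zero => exact ⟨hx, hy⟩
    | succ n ih =>
      have e1 := h3 n
      have e1' := h3' n
      have e2 := h4 n
      have e2' := h4' n
      have hd : a n = a' n := by
        apply digit_eq (h1 (n + 1)) (h1' (n + 1))
        rw [e1, e1', ih.1, ih.2]; ring
      have ex : x (n + 1) = x' (n + 1) := by rw [e1, e1', ih.1, ih.2, hd]
      exact ⟨ex, by rw [e2, e2', ih.2, ex]⟩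
    | pred n ih =>
      have e0 : (-(n : ℤ) - 1) + 1 = -(n : ℤ) := by ring
      have e1 := h3 (-(n : ℤ) - 1)
      have e1' := h3' (-(n : ℤ) - 1)
      have e2 := h4 (-(n : ℤ) - 1)
      have e2' := h4' (-(n : ℤ) - 1)
      rw [e0] at e1 e1' e2 e2'
      have ey : y (-(n : ℤ) - 1) = y' (-(n : ℤ) - 1) := by
        have := ih.1
        have := ih.2
        rw [e2, e2', ih.1] at this
        linarith
      have hd : a' (-(n : ℤ) - 1) = a (-(n : ℤ) - 1) := by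
        apply digit_eq (h1 (-(n : ℤ) - 1)) (h1' (-(n : ℤ) - 1))
        have := ih.1
        rw [e1, e1', ey] at this
        linarith
      refine ⟨?_, ey⟩
      have := ih.1
      rw [e1, e1', ey, hd] at this
      linarith
  refine ⟨key, ?_⟩
  funext n
  apply digit_eq (h1 (n + 1)) (h1' (n + 1))
  rw [h3 n, h3' n, (key n).1, (key n).2]
  ring

lemma exp_inj_half {u v : ℝ} (hu : |u| ≤ 1 / 2) (hv : |v| ≤ 1 / 2)
    (h : Circle.exp u = Circle.exp v) : u = v := by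
  obtain ⟨m, hm⟩ := Circle.exp_eq_exp.1 h
  have h3 : |u - v| ≤ 1 := by
    have := abs_sub u v
    linarith
  have hm0 : m = 0 := by
    by_contra hne
    have h1 : (1 : ℝ) ≤ |(m : ℝ)| := by
      rw [← Int.cast_abs]
      exact_mod_cast Int.one_le_abs hne
    have h2 : u - v = m * (2 * π) := by rw [hm]; ring
    rw [h2, abs_mul, abs_of_pos (by positivity : (0 : ℝ) < 2 * π)] at h3
    have h4 := Real.pi_gt_three
    nlinarith
  rw [hm, hm0]; simp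

lemma pt_unique {A : ℝ} {a a' : Seq} {x y x' y' : ℤ → ℝ} (h : Orb A a x y)
    (h' : Orb A a' x' y') (he : pt (x 0) (y 0) = pt (x' 0) (y' 0)) : a = a' := by
  unfold pt at he
  rw [Prod.mk.injEq, Prod.mk.injEq] at he
  exact (orb_unique h h' (exp_inj_half (h.1 0) (h'.1 0) he.1)
    (exp_inj_half (h.2.1 0) (h'.2.1 0) he.2.1)).2

/-- The relation on the torus. -/
def RM (A : ℝ) : Set (T3 × T3) :=
  {q | ∃ (a : Seq) (x y : ℤ → ℝ) (a' : Seq) (x' y' : ℤ → ℝ), Orb A a x y ∧ Orb A a' x' y' ∧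
    RR a a' ∧ q = (pt (x 0) (y 0), pt (x' 0) (y' 0))}

lemma RM_symm {A : ℝ} : ∀ p ∈ RM A, (p.2, p.1) ∈ RM A := by
  rintro p ⟨a, x, y, a', x', y', h1, h2, h3, rfl⟩
  exact ⟨a', x', y', a, x, y, h2, h1, RR_symm h3, rfl⟩

lemma RM_diag {A : ℝ} (m : T3) : (m, m) ∉ RM A := by
  rintro ⟨a, x, y, a', x', y', h1, h2, h3, h4⟩
  rw [Prod.mk.injEq] at h4
  have := pt_unique h1 h2 (h4.1.symm.trans h4.2)
  subst this
  exact adj_ne _ _ (RR_adj h3) rfl

lemma isCompact_orb (A : ℝ) :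
    IsCompact {o : Seq × (ℤ → ℝ) × (ℤ → ℝ) | Orb A o.1 o.2.1 o.2.2} := by
  have hbox : IsCompact ((Set.univ : Set Seq) ×ˢ
      ((Set.univ.pi fun _ : ℤ => Set.Icc (-(1 / 2) : ℝ) (1 / 2)) ×ˢ
       (Set.univ.pi fun _ : ℤ => Set.Icc (-(1 / 2) : ℝ) (1 / 2)))) :=
    isCompact_univ.prod ((isCompact_univ_pi fun _ => isCompact_Icc).prod
      (isCompact_univ_pi fun _ => isCompact_Icc))
  refine hbox.of_isClosed_subset ?_ ?_
  · have : {o : Seq × (ℤ → ℝ) × (ℤ → ℝ) | Orb A o.1 o.2.1 o.2.2} =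
      ((⋂ n : ℤ, {o : Seq × (ℤ → ℝ) × (ℤ → ℝ) | |o.2.1 n| ≤ 1 / 2}) ∩
       (⋂ n : ℤ, {o : Seq × (ℤ → ℝ) × (ℤ → ℝ) | |o.2.2 n| ≤ 1 / 2})) ∩
      ((⋂ n : ℤ, {o : Seq × (ℤ → ℝ) × (ℤ → ℝ) |
          o.2.1 (n + 1) = o.2.1 n + A * sin (o.2.2 n) - 2 * π * ((o.1 n : Fin 6) : ℕ)}) ∩
       (⋂ n : ℤ, {o : Seq × (ℤ → ℝ) × (ℤ → ℝ) |
          o.2.2 (n + 1) = o.2.2 n + A * sin (o.2.1 (n + 1))})) := by
      ext o
      simp only [Orb, Set.mem_ofPred_eq, Set.mem_inter_iff, Set.mem_iInter]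
      tauto
    rw [this]
    have hdig : ∀ n : ℤ, Continuous (fun o : Seq × (ℤ → ℝ) × (ℤ → ℝ) =>
        (((o.1 n : Fin 6) : ℕ) : ℝ)) := by
      intro n
      exact (continuous_of_discreteTopology (f := fun d : Fin 6 => ((d : ℕ) : ℝ))).comp
        ((continuous_apply n).comp continuous_fst)
    refine ((isClosed_iInter fun n => isClosed_le (by fun_prop) (by fun_prop)).inter
      (isClosed_iInter fun n => isClosed_le (by fun_prop) (by fun_prop))).inter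
      ((isClosed_iInter fun n => isClosed_eq (by fun_prop) ?_).inter
      (isClosed_iInter fun n => isClosed_eq (by fun_prop) (by fun_prop)))
    have := hdig n
    fun_prop
  · intro o ho
    obtain ⟨h1, h2, _, _⟩ := ho
    refine ⟨Set.mem_univ _, fun n _ => abs_le.1 (h1 n), fun n _ => abs_le.1 (h2 n)⟩

lemma isClosed_RM (A : ℝ) : IsClosed (RM A) := by
  apply IsCompact.isClosed
  have hc := (isCompact_orb A).prod (isCompact_orb A)
  have hcl : IsClosed {q : (Seq × (ℤ → ℝ) × (ℤ → ℝ)) × (Seq × (ℤ → ℝ) × (ℤ → ℝ)) |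
      RR q.1.1 q.2.1} := by
    have : Continuous (fun q : (Seq × (ℤ → ℝ) × (ℤ → ℝ)) × (Seq × (ℤ → ℝ) × (ℤ → ℝ)) =>
      ((q.1.1, q.2.1) : Seq × Seq)) := by fun_prop
    exact isClosed_RR.preimage this
  have hc2 := hc.inter_right hcl
  have hf : Continuous (fun q : (Seq × (ℤ → ℝ) × (ℤ → ℝ)) × (Seq × (ℤ → ℝ) × (ℤ → ℝ)) =>
      ((pt (q.1.2.1 0) (q.1.2.2 0), pt (q.2.2.1 0) (q.2.2.2 0)) : T3 × T3)) := by
    unfold pt
    fun_prop
  have := hc2.image hf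
  convert this using 1
  ext q
  constructor
  · rintro ⟨a, x, y, a', x', y', h1, h2, h3, rfl⟩
    exact ⟨((a, x, y), (a', x', y')), ⟨⟨h1, h2⟩, h3⟩, rfl⟩
  · rintro ⟨⟨⟨a, x, y⟩, ⟨a', x', y'⟩⟩, ⟨⟨h1, h2⟩, h3⟩, rfl⟩
    exact ⟨a, x, y, a', x', y', h1, h2, h3, rfl⟩

end Pool.Agent.R812.SF
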