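import Pool.Agent.R812.SF.Orb
import Pool.Agent.R812.SF.Metric

/-!
# MP_a86bc9_an : separation numbers of the flow
-/

namespace Pool.Agent.R812.SF

open Real Topology

/-- `D_T(x, y) = max_{0 ≤ t ≤ T} D(φ^t x, φ^t y)`. -/
noncomputable def DT {M : Type*} (φ : ℝ → M → M) (D : M → M → ℝ) (T : ℝ) (x y : M) : ℝ :=
  sSup ((fun t => D (φ t x) (φ t y)) '' Set.Icc 0 T)

/-- Sizes of the `ε`-separated finite sets for a function `ρ`. -/
def sepSizes {M : Type*} (ρ : M → M → ℝ) (ε : ℝ) : Set ℕ :=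
  {n | ∃ S : Finset M, S.card = n ∧ ∀ x ∈ S, ∀ y ∈ S, x ≠ y → ε ≤ ρ x y}

/-- The separation number. -/
noncomputable def sepNum {M : Type*} (ρ : M → M → ℝ) (ε : ℝ) : ℕ := sSup (sepSizes ρ ε)

section

variable {A : ℝ} {φ : ℝ → T3 → T3}
  (hφ0 : ∀ m, φ 0 m = m) (hφa : ∀ s t m, φ (s + t) m = φ s (φ t m))
  (hφz : ∀ t m, (φ t m).2.2 = m.2.2 * Circle.exp t)
  (hφp : ∀ x y : ℝ, φ (2 * π) (Circle.exp x, Circle.exp y, 1) =
      (Circle.exp (x + A * sin y), Circle.exp (y + A * sin (x + A * sin y)), 1))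

include hφp in
lemma flow_step {a : Seq} {x y : ℤ → ℝ} (h : Orb A a x y) (n : ℤ) :
    φ (2 * π) (pt (x n) (y n)) = pt (x (n + 1)) (y (n + 1)) := by
  have h3 := h.2.2.1 n
  have h4 := h.2.2.2 n
  unfold pt
  rw [hφp]
  have e1 : x n + A * sin (y n) = x (n + 1) + ((a n : ℕ) : ℤ) * (2 * π) := by
    rw [h3]; push_cast; ring
  have e2 : Circle.exp (x n + A * sin (y n)) = Circle.exp (x (n + 1)) := by
    rw [e1]; exact Circle.exp_eq_exp.2 ⟨_, rfl⟩
  have e3 : sin (x n + A * sin (y n)) = sin (x (n + 1)) := by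
    rw [e1, sin_add_int_mul_two_pi]
  rw [e2, e3, ← h4]

include hφ0 hφa hφp in
lemma flow_orb {a : Seq} {x y : ℤ → ℝ} (h : Orb A a x y) (n : ℤ) :
    φ (2 * π * n) (pt (x 0) (y 0)) = pt (x n) (y n) := by
  induction n using Int.induction_on with
  | zero => simp [hφ0]
  | succ n ih =>
    have : (2 * π * ((n : ℤ) + 1 : ℤ) : ℝ) = 2 * π + 2 * π * (n : ℤ) := by push_cast; ring
    rw [this, hφa, ih]
    exact flow_step hφp h n
  | pred n ih =>
    have h1 := flow_step hφp h (-(n : ℤ) - 1)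
    rw [show (-(n : ℤ) - 1 + 1) = -(n : ℤ) by ring] at h1
    have h2 : (2 * π * ((-(n : ℤ) - 1 : ℤ) : ℝ) : ℝ) =
        -(2 * π) + 2 * π * ((-(n : ℤ) : ℤ) : ℝ) := by
      push_cast; ring
    rw [h2, hφa, ih, ← h1, ← hφa]
    simp [hφ0]

include hφ0 hφa hφz hφp in
/-- Upper bound for the separated sets. -/
theorem sep_upper (k : ℕ) (T : ℝ) (hT : T < 2 * π * (40 * gp k)) (S : Finset T3)
    (hS : ∀ x ∈ S, ∀ y ∈ S, x ≠ y → ∃ t ∈ Set.Icc 0 T, (φ t x, φ t y) ∈ RM A) :
    S.card ≤ 2 ^ (40 * gp k + 1) := by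
  classical
  rcases le_or_gt S.card 1 with hc | hc
  · exact hc.trans Nat.one_le_two_pow
  · obtain ⟨x0, hx0, y0, hy0, hne0⟩ := Finset.one_lt_card.1 hc
    obtain ⟨t, ht, hrel⟩ := hS x0 hx0 y0 hy0 hne0
    -- base phase
    have hz : ∀ p q : T3, ∀ s : ℝ, (φ s p, φ s q) ∈ RM A →
        p.2.2 * Circle.exp s = 1 ∧ q.2.2 * Circle.exp s = 1 := by
      rintro p q s ⟨a, x, y, a', x', y', h1, h2, h3, h4⟩
      rw [Prod.mk.injEq] at h4
      constructor
      · rw [← hφz, h4.1]; rfl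
      · rw [← hφz, h4.2]; rfl
    have h2π : (0 : ℝ) < 2 * π := by positivity
    set t0 := toIcoMod h2π 0 t with ht0
    have ht0m : 0 ≤ t0 ∧ t0 < 2 * π := by
      have := toIcoMod_mem_Ico h2π 0 t
      rw [zero_add] at this
      exact this
    obtain ⟨m0, hm0⟩ : ∃ m : ℤ, t = t0 + m * (2 * π) := by
      refine ⟨toIcoDiv h2π 0 t, ?_⟩
      have := toIcoMod_add_toIcoDiv_zsmul h2π 0 t
      rw [zsmul_eq_mul] at this
      exact this.symm
    have hbase : x0.2.2 * Circle.exp t0 = 1 := by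
      have h1 := (hz _ _ _ hrel).1
      rw [hm0, Circle.exp_eq_exp.2 ⟨m0, rfl⟩] at h1
      exact h1
    -- all times of relations
    have htimes : ∀ x ∈ S, ∀ y ∈ S, x ≠ y → ∃ i : ℕ, i < 40 * gp k ∧
        (φ (t0 + 2 * π * (i : ℤ)) x, φ (t0 + 2 * π * (i : ℤ)) y) ∈ RM A := by
      intro x hx y hy hne
      obtain ⟨s, hs, hsr⟩ := hS x hx y hy hne
      have hxz : x.2.2 = x0.2.2 := by
        by_cases hxx : x = x0
        · rw [hxx]
        · obtain ⟨s', _, hsr'⟩ := hS x hx x0 hx0 hxx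
          have := hz _ _ _ hsr'
          exact mul_right_cancel (this.1.trans this.2.symm)
      have h1 := (hz _ _ _ hsr).1
      rw [hxz, ← hbase] at h1
      have h2 : Circle.exp s = Circle.exp t0 := mul_left_cancel h1
      obtain ⟨m, hm⟩ := Circle.exp_eq_exp.1 h2
      have hm1 : -1 < m := by
        by_contra hcon
        have hcon' : m ≤ -1 := by omega
        have h5 : (m : ℝ) ≤ -1 := by exact_mod_cast hcon'
        have h6 : m * (2 * π) ≤ -1 * (2 * π) := mul_le_mul_of_nonneg_right h5 h2π.le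
        have h7 := hs.1
        linarith [ht0m.2]
      obtain ⟨i, rfl⟩ := Int.eq_ofNat_of_zero_le (show 0 ≤ m by omega)
      refine ⟨i, ?_, ?_⟩
      · have h5 : (i : ℝ) * (2 * π) ≤ T := by
          have := hs.2
          have := ht0m.1
          push_cast at hm
          linarith
        have h6 : (i : ℝ) < 40 * gp k := by
          by_contra hcon
          push Not at hcon
          have : 2 * π * (40 * gp k) ≤ (i : ℝ) * (2 * π) := by
            rw [mul_comm]; exact mul_le_mul_of_nonneg_right hcon h2π.le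
          linarith
        exact_mod_cast h6
      · have e : t0 + 2 * π * ((i : ℤ) : ℝ) = s := by rw [hm]; ring
        rw [e]; exact hsr
    -- codes
    have hcode : ∀ p : T3, ∃ a : Seq, p ∈ S → ∃ x y : ℤ → ℝ, Orb A a x y ∧
        φ t0 p = pt (x 0) (y 0) := by
      intro p
      by_cases hp : p ∈ S
      · obtain ⟨q, hq, hpq⟩ : ∃ q ∈ S, q ≠ p := by
          by_cases h : p = x0
          · exact ⟨y0, hy0, fun h' => hne0 (by rw [← h, h'])⟩
          · exact ⟨x0, hx0, fun h' => h h'.symm⟩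
        obtain ⟨i, _, a, x, y, a', x', y', h1, h2, h3, h4⟩ := htimes p hp q hq hpq.symm
        rw [Prod.mk.injEq] at h4
        refine ⟨sh (-(i : ℤ)) a, fun _ => ⟨_, _, h1.shift (-(i : ℤ)), ?_⟩⟩
        have h5 := flow_orb hφ0 hφa hφp h1 (-(i : ℤ))
        rw [← h4.1, ← hφa] at h5
        have e : 2 * π * ((-(i : ℤ) : ℤ) : ℝ) + (t0 + 2 * π * ((i : ℤ) : ℝ)) = t0 := by
          push_cast; ring
        rw [e] at h5
        rw [h5]
        simp
      · exact ⟨fun _ => 0, fun h => absurd h hp⟩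
    choose c hc using hcode
    have hrelc : ∀ x ∈ S, ∀ y ∈ S, x ≠ y → ∃ i : ℕ, i < 40 * gp k ∧
        RR (sh i (c x)) (sh i (c y)) := by
      intro x hx y hy hne
      obtain ⟨i, hi, a, u, v, a', u', v', h1, h2, h3, h4⟩ := htimes x hx y hy hne
      rw [Prod.mk.injEq] at h4
      refine ⟨i, hi, ?_⟩
      obtain ⟨p, q, hpq, hp⟩ := hc x hx
      obtain ⟨p', q', hpq', hp'⟩ := hc y hy
      have e : t0 + 2 * π * ((i : ℤ) : ℝ) = 2 * π * ((i : ℤ) : ℝ) + t0 := by ring
      have e1 : a = sh i (c x) := by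
        apply pt_unique h1 (hpq.shift i)
        rw [← h4.1, e, hφa, hp, flow_orb hφ0 hφa hφp hpq i]
        simp
      have e2 : a' = sh i (c y) := by
        apply pt_unique h2 (hpq'.shift i)
        rw [← h4.2, e, hφa, hp', flow_orb hφ0 hφa hφp hpq' i]
        simp
      rw [← e1, ← e2]; exact h3
    have hinj : Set.InjOn c (S : Set T3) := by
      intro x hx y hy hxy
      by_contra hne
      obtain ⟨i, _, h⟩ := hrelc x hx y hy hne
      rw [hxy] at h
      exact adj_ne _ _ (RR_adj h) rfl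
    rw [← Finset.card_image_of_injOn hinj]
    apply clique_upper
    intro a ha b hb hab
    rw [Finset.mem_image] at ha hb
    obtain ⟨x, hx, rfl⟩ := ha
    obtain ⟨y, hy, rfl⟩ := hb
    exact hrelc x hx y hy (fun h => hab (by rw [h]))

include hφ0 hφa hφp in
/-- Large separated sets. -/
theorem sep_lower (hcode : ∀ a : ℤ → Fin 6, ∃ x y : ℤ → ℝ, Orb A a x y) (k : ℕ) (T : ℝ)
    (hT : 2 * π * (9 * gp k) ≤ T) :
    ∃ S : Finset T3, S.card = 5 ^ (4 * gp k) ∧
      ∀ x ∈ S, ∀ y ∈ S, x ≠ y → ∃ t ∈ Set.Icc 0 T, (φ t x, φ t y) ∈ RM A := by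
  classical
  choose X Y hXY using hcode
  let F : (Fin (4 * gp k) → Fin 5) → T3 := fun w => pt (X (cw k w) 0) (Y (cw k w) 0)
  have hrel : ∀ w w' : Fin (4 * gp k) → Fin 5, w ≠ w' →
      ∃ t ∈ Set.Icc 0 T, (φ t (F w), φ t (F w')) ∈ RM A := by
    intro w w' hne
    obtain ⟨i, hi, h⟩ := cw_rel k w w' hne
    have h2π : (0 : ℝ) < 2 * π := by positivity
    refine ⟨2 * π * ((i : ℤ) : ℝ), ⟨by positivity, ?_⟩, ?_⟩
    · refine le_trans ?_ hT
      apply mul_le_mul_of_nonneg_left _ h2π.le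
      have : (i : ℝ) < 9 * gp k := by exact_mod_cast hi
      simpa using this.le
    · refine ⟨_, _, _, _, _, _, (hXY (cw k w)).shift i, (hXY (cw k w')).shift i, h, ?_⟩
      simp only [F]
      rw [flow_orb hφ0 hφa hφp (hXY (cw k w)) i, flow_orb hφ0 hφa hφp (hXY (cw k w')) i]
      simp
  have hinj : Function.Injective F := by
    intro w w' h
    by_contra hne
    obtain ⟨t, _, ht⟩ := hrel w w' hne
    rw [h] at ht
    exact RM_diag _ ht
  refine ⟨Finset.univ.image F, ?_, ?_⟩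
  · rw [Finset.card_image_of_injective _ hinj, Finset.card_univ, Fintype.card_fun,
      Fintype.card_fin, Fintype.card_fin]
  · intro x hx y hy hne
    rw [Finset.mem_image] at hx hy
    obtain ⟨w, _, rfl⟩ := hx
    obtain ⟨w', _, rfl⟩ := hy
    exact hrel w w' (fun h => hne (by rw [h]))

end

end Pool.Agent.R812.SF
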