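import Pool.Agent.R812.SF.Sep
import Pool.Agent.R812.SF.Avoid

/-!
# MP_a86bc9_an : the relation used for spanning numbers
-/

namespace Pool.Agent.R812.SF

open Real Topology

/-- Section points whose digit at `0` is `d`. -/
def Lam (A : ℝ) (d : Fin 6) : Set T3 :=
  {m | ∃ (a : Seq) (x y : ℤ → ℝ), Orb A a x y ∧ a 0 = d ∧ m = pt (x 0) (y 0)}

lemma continuous_pt_eval :
    Continuous (fun o : Seq × (ℤ → ℝ) × (ℤ → ℝ) => pt (o.2.1 0) (o.2.2 0)) := by
  unfold pt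
  fun_prop

lemma isCompact_Lam (A : ℝ) (d : Fin 6) : IsCompact (Lam A d) := by
  have hcl : IsClosed {o : Seq × (ℤ → ℝ) × (ℤ → ℝ) | o.1 0 = d} :=
    isClosed_eq (by fun_prop) continuous_const
  have := ((isCompact_orb A).inter_right hcl).image continuous_pt_eval
  convert this using 1
  ext m
  constructor
  · rintro ⟨a, x, y, h1, h2, rfl⟩
    exact ⟨(a, x, y), ⟨h1, h2⟩, rfl⟩
  · rintro ⟨⟨a, x, y⟩, ⟨h1, h2⟩, rfl⟩
    exact ⟨a, x, y, h1, h2, rfl⟩

lemma Lam_disj {A : ℝ} {d d' : Fin 6} {m : T3} (h : m ∈ Lam A d) (h' : m ∈ Lam A d') :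
    d = d' := by
  obtain ⟨a, x, y, h1, rfl, h3⟩ := h
  obtain ⟨a', x', y', h1', rfl, h3'⟩ := h'
  rw [pt_unique h1 h1' (h3.symm.trans h3')]

/-- The open digit regions. -/
def VV (A : ℝ) (d : Fin 6) : Set T3 :=
  {m | ∀ d' : Fin 6, d' ≠ d → Metric.infDist m (Lam A d) < Metric.infDist m (Lam A d')}

lemma isOpen_VV (A : ℝ) (d : Fin 6) : IsOpen (VV A d) := by
  have : VV A d = ⋂ d' : Fin 6, ⋂ (_ : d' ≠ d),
      {m | Metric.infDist m (Lam A d) < Metric.infDist m (Lam A d')} := by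
    ext m; simp [VV]
  rw [this]
  refine isOpen_iInter_of_finite fun d' => isOpen_iInter_of_finite fun _ => ?_
  exact isOpen_lt (Metric.continuous_infDist_pt _) (Metric.continuous_infDist_pt _)

lemma VV_disj {A : ℝ} {d d' : Fin 6} {m : T3} (h : m ∈ VV A d) (h' : m ∈ VV A d') : d = d' := by
  by_contra hne
  have h1 := h d' (Ne.symm hne)
  have h2 := h' d hne
  exact lt_asymm h1 h2

lemma Lam_nonempty {A : ℝ} (hcd : ∀ a : Seq, ∃ x y : ℤ → ℝ, Orb A a x y) (d : Fin 6) :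
    (Lam A d).Nonempty := by
  obtain ⟨x, y, h⟩ := hcd (fun _ => d)
  exact ⟨_, _, _, _, h, rfl, rfl⟩

lemma Lam_sub_VV {A : ℝ} (hcd : ∀ a : Seq, ∃ x y : ℤ → ℝ, Orb A a x y) {d : Fin 6} {m : T3}
    (h : m ∈ Lam A d) : m ∈ VV A d := by
  intro d' hne
  rw [Metric.infDist_zero_of_mem h]
  have h1 : m ∉ Lam A d' := fun h' => hne (Lam_disj h' h)
  exact ((isCompact_Lam A d').isClosed.notMem_iff_infDist_pos (Lam_nonempty hcd d')).1 h1

/-- Block lengths for the second construction. -/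
def nk (k : ℕ) : ℕ := 4 ^ k

lemma nk_pos (k : ℕ) : 1 ≤ nk k := Nat.one_le_pow _ _ (by norm_num)
lemma nk_succ (k : ℕ) : nk (k + 1) = 4 * nk k := by unfold nk; ring
lemma nk_mono {j k : ℕ} (h : j ≤ k) : nk j ≤ nk k := Nat.pow_le_pow_right (by norm_num) h
lemma le_nk (k : ℕ) : k ≤ nk k := (Nat.lt_pow_self (by norm_num)).le
lemma nk_inj {j k : ℕ} (h : nk j = nk k) : j = k := Nat.pow_right_injective (by norm_num) h

section

variable (A : ℝ) (φ : ℝ → T3 → T3)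

/-- `m` is in the region `d` at time `2 π j`. -/
def II (m : T3) (j : ℤ) (d : Fin 6) : Prop := φ (2 * π * j) m ∈ VV A d

/-- Same ordinary digit at time `0`. -/
def U0 (u v : T3) : Prop := ∃ d : Fin 6, (d = 0 ∨ d = 1) ∧ II A φ u 0 d ∧ II A φ v 0 d

/-- Joker relation of scale `k`. -/
def UK (k : ℕ) (u v : T3) : Prop := ∃ s : ℕ, (nk k ≤ s ∧ s < 2 * nk k) ∧
  II A φ v (-(s : ℤ) - 1) 3 ∧ II A φ v (-(s : ℤ) + (2 * nk k : ℕ)) 3 ∧
  (∀ l : Fin (nk k), ∃ d : Fin 6, (d = 0 ∨ d = 1) ∧ II A φ u (-(s : ℤ) + (l : ℕ)) d ∧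
    II A φ v (-(s : ℤ) + (l : ℕ)) d) ∧
  (∀ l : Fin (nk k), II A φ v (-(s : ℤ) + ((nk k + (l : ℕ) : ℕ) : ℤ)) 2)

/-- The open relation. -/
def UU : Set (T3 × T3) := {p | U0 A φ p.1 p.2 ∨ ∃ k, UK A φ k p.1 p.2}

/-- Section points with ordinary codes. -/
def W1 : Set T3 := {m | ∃ (a : Seq) (x y : ℤ → ℝ), Orb A a x y ∧ (∀ j, a j = 0 ∨ a j = 1) ∧
  m = pt (x 0) (y 0)}

/-- `p.2` is close to `p.1`. -/
def NN : Set (T3 × T3) := {p | (p.2.2.2 : ℂ) ∈ Complex.slitPlane ∧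
  |Complex.arg (p.2.2.2 : ℂ)| < 1 ∧ (p.1, φ (-Complex.arg (p.2.2.2 : ℂ)) p.2) ∈ UU A φ}

/-- One half of the far relation. -/
def R2 : Set (T3 × T3) := {p | p.1 ∈ W1 A ∧ p ∉ NN A φ}

/-- The far relation. -/
def RS : Set (T3 × T3) := {p | p ∈ R2 A φ ∨ (p.2, p.1) ∈ R2 A φ}

end

section

variable {A : ℝ} {φ : ℝ → T3 → T3}
  (hc : Continuous (fun p : ℝ × T3 => φ p.1 p.2))
  (hφ0 : ∀ m, φ 0 m = m) (hφa : ∀ s t m, φ (s + t) m = φ s (φ t m))
  (hφz : ∀ t m, (φ t m).2.2 = m.2.2 * Circle.exp t)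
  (hφp : ∀ x y : ℝ, φ (2 * π) (Circle.exp x, Circle.exp y, 1) =
      (Circle.exp (x + A * sin y), Circle.exp (y + A * sin (x + A * sin y)), 1))
  (hcd : ∀ a : Seq, ∃ x y : ℤ → ℝ, Orb A a x y)

lemma isCompact_W1 (A : ℝ) : IsCompact (W1 A) := by
  have hcl : IsClosed {o : Seq × (ℤ → ℝ) × (ℤ → ℝ) | ∀ j, o.1 j = 0 ∨ o.1 j = 1} := by
    have : {o : Seq × (ℤ → ℝ) × (ℤ → ℝ) | ∀ j, o.1 j = 0 ∨ o.1 j = 1} =
      ⋂ j : ℤ, ({o | o.1 j = 0} ∪ {o | o.1 j = 1}) := by ext o; simp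
    rw [this]
    refine isClosed_iInter fun j => ?_
    exact (isClosed_eq (by fun_prop) continuous_const).union
      (isClosed_eq (by fun_prop) continuous_const)
  have := ((isCompact_orb A).inter_right hcl).image continuous_pt_eval
  convert this using 1
  ext m
  constructor
  · rintro ⟨a, x, y, h1, h2, rfl⟩
    exact ⟨(a, x, y), ⟨h1, h2⟩, rfl⟩
  · rintro ⟨⟨a, x, y⟩, ⟨h1, h2⟩, rfl⟩
    exact ⟨a, x, y, h1, h2, rfl⟩

include hc in
lemma isOpen_II_fst (j : ℤ) (d : Fin 6) : IsOpen {p : T3 × T3 | II A φ p.1 j d} := by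
  have h1 : Continuous (fun p : T3 × T3 => φ (2 * π * j) p.1) :=
    hc.comp (by fun_prop : Continuous fun p : T3 × T3 => ((2 * π * j : ℝ), p.1))
  exact (isOpen_VV A d).preimage h1

include hc in
lemma isOpen_II_snd (j : ℤ) (d : Fin 6) : IsOpen {p : T3 × T3 | II A φ p.2 j d} := by
  have h1 : Continuous (fun p : T3 × T3 => φ (2 * π * j) p.2) :=
    hc.comp (by fun_prop : Continuous fun p : T3 × T3 => ((2 * π * j : ℝ), p.2))
  exact (isOpen_VV A d).preimage h1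

include hc in
lemma isOpen_UU : IsOpen (UU A φ) := by
  have hf := isOpen_II_fst (A := A) hc
  have hs := isOpen_II_snd (A := A) hc
  have h0 : IsOpen {p : T3 × T3 | U0 A φ p.1 p.2} := by
    have : {p : T3 × T3 | U0 A φ p.1 p.2} = ⋃ d : Fin 6, ⋃ (_ : d = 0 ∨ d = 1),
        ({p : T3 × T3 | II A φ p.1 0 d} ∩ {p : T3 × T3 | II A φ p.2 0 d}) := by
      ext p; simp only [U0, Set.mem_ofPred_eq, Set.mem_iUnion, Set.mem_inter_iff, exists_prop]
    rw [this]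
    exact isOpen_iUnion fun d => isOpen_iUnion fun _ => (hf 0 d).inter (hs 0 d)
  have hk : ∀ k, IsOpen {p : T3 × T3 | UK A φ k p.1 p.2} := by
    intro k
    have : {p : T3 × T3 | UK A φ k p.1 p.2} = ⋃ s : ℕ, ⋃ (_ : nk k ≤ s ∧ s < 2 * nk k),
        ({p : T3 × T3 | II A φ p.2 (-(s : ℤ) - 1) 3} ∩
        ({p : T3 × T3 | II A φ p.2 (-(s : ℤ) + (2 * nk k : ℕ)) 3} ∩
        ((⋂ l : Fin (nk k), ⋃ d : Fin 6, ⋃ (_ : d = 0 ∨ d = 1),
          ({p : T3 × T3 | II A φ p.1 (-(s : ℤ) + (l : ℕ)) d} ∩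
           {p : T3 × T3 | II A φ p.2 (-(s : ℤ) + (l : ℕ)) d})) ∩
        (⋂ l : Fin (nk k), {p : T3 × T3 | II A φ p.2 (-(s : ℤ) + ((nk k + (l : ℕ) : ℕ) : ℤ)) 2}))))
        := by
      ext p
      simp only [UK, Set.mem_ofPred_eq, Set.mem_iUnion, Set.mem_inter_iff, Set.mem_iInter,
        exists_prop]
    rw [this]
    refine isOpen_iUnion fun s => isOpen_iUnion fun _ => (hs _ _).inter ((hs _ _).inter
      (IsOpen.inter ?_ ?_))
    · exact isOpen_iInter_of_finite fun l => isOpen_iUnion fun d => isOpen_iUnion fun _ =>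
        (hf _ d).inter (hs _ d)
    · exact isOpen_iInter_of_finite fun l => hs _ _
  have : UU A φ = {p : T3 × T3 | U0 A φ p.1 p.2} ∪ ⋃ k, {p : T3 × T3 | UK A φ k p.1 p.2} := by
    ext p; simp [UU]
  rw [this]
  exact h0.union (isOpen_iUnion hk)

include hc in
lemma isOpen_NN : IsOpen (NN A φ) := by
  have hz : Continuous (fun p : T3 × T3 => (p.2.2.2 : ℂ)) := by fun_prop
  set S : Set (T3 × T3) := {p | (p.2.2.2 : ℂ) ∈ Complex.slitPlane} with hS
  have hSo : IsOpen S := Complex.isOpen_slitPlane.preimage hz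
  have harg : ContinuousOn (fun p : T3 × T3 => Complex.arg (p.2.2.2 : ℂ)) S := by
    intro p hp
    exact ((Complex.continuousAt_arg hp).comp (f := fun p : T3 × T3 => (p.2.2.2 : ℂ))
      hz.continuousAt).continuousWithinAt
  have hf : ContinuousOn (fun p : T3 × T3 =>
      (|Complex.arg (p.2.2.2 : ℂ)|, (p.1, φ (-Complex.arg (p.2.2.2 : ℂ)) p.2))) S := by
    refine harg.abs.prodMk (continuousOn_fst.prodMk ?_)
    exact hc.comp_continuousOn (harg.neg.prodMk continuousOn_snd)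
  have ho : IsOpen ((Set.Iio (1 : ℝ)) ×ˢ (UU A φ)) := isOpen_Iio.prod (isOpen_UU hc)
  have h1 := hf.isOpen_inter_preimage hSo ho
  have : NN A φ = S ∩ (fun p : T3 × T3 =>
      (|Complex.arg (p.2.2.2 : ℂ)|, (p.1, φ (-Complex.arg (p.2.2.2 : ℂ)) p.2))) ⁻¹'
      ((Set.Iio (1 : ℝ)) ×ˢ (UU A φ)) := by
    ext p
    simp [NN, hS]
  rw [this]
  exact h1

include hc in
lemma isClosed_RS : IsClosed (RS A φ) := by
  have h2 : IsClosed (R2 A φ) := by
    have : R2 A φ = (Prod.fst ⁻¹' (W1 A)) ∩ (NN A φ)ᶜ := by ext p; simp [R2]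
    rw [this]
    exact ((isCompact_W1 A).isClosed.preimage continuous_fst).inter (isOpen_NN hc).isClosed_compl
  have : RS A φ = R2 A φ ∪ (fun p : T3 × T3 => (p.2, p.1)) ⁻¹' (R2 A φ) := by
    ext p; simp [RS]
  rw [this]
  exact h2.union (h2.preimage (by fun_prop))

lemma RS_symm : ∀ p ∈ RS A φ, (p.2, p.1) ∈ RS A φ := by
  rintro p (h | h)
  · exact Or.inr h
  · exact Or.inl h

include hφ0 hφa hφp hcd in
lemma II_orb {a : Seq} {x y : ℤ → ℝ} (h : Orb A a x y) (n j : ℤ) :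
    II A φ (pt (x n) (y n)) j (a (n + j)) := by
  unfold II
  have h1 := flow_orb hφ0 hφa hφp (h.shift n) j
  simp only [zero_add] at h1
  rw [h1]
  apply Lam_sub_VV hcd
  refine ⟨_, _, _, h.shift (n + j), ?_, ?_⟩
  · simp [sh]
  · simp only [zero_add]
    rw [add_comm j n]

include hφ0 hφa hφp hcd in
lemma II_orb_iff {a : Seq} {x y : ℤ → ℝ} (h : Orb A a x y) (n j : ℤ) (d : Fin 6) :
    II A φ (pt (x n) (y n)) j d ↔ d = a (n + j) := by
  constructor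
  · intro h1
    exact VV_disj h1 (II_orb hφ0 hφa hφp hcd h n j)
  · rintro rfl
    exact II_orb hφ0 hφa hφp hcd h n j

include hφ0 hφa hφp hcd in
lemma RS_diag (m : T3) : (m, m) ∉ RS A φ := by
  have key : (m, m) ∉ R2 A φ := by
    rintro ⟨⟨a, x, y, h1, h2, h3⟩, h4⟩
    change m = pt (x 0) (y 0) at h3
    apply h4
    have hz : (m.2.2 : ℂ) = 1 := by rw [h3]; simp [pt]
    refine ⟨?_, ?_, ?_⟩
    · change (m.2.2 : ℂ) ∈ _
      rw [hz]; exact Complex.one_mem_slitPlane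
    · change |Complex.arg (m.2.2 : ℂ)| < 1
      rw [hz]; simp
    · change (m, φ (-Complex.arg (m.2.2 : ℂ)) m) ∈ _
      rw [hz, Complex.arg_one, neg_zero, hφ0]
      left
      refine ⟨a 0, h2 0, ?_, ?_⟩
      · change II A φ m 0 (a 0)
        rw [h3]
        have := II_orb hφ0 hφa hφp hcd h1 0 0
        simpa using this
      · change II A φ m 0 (a 0)
        rw [h3]
        have := II_orb hφ0 hφa hφp hcd h1 0 0
        simpa using this
  rintro (h | h)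
  · exact key h
  · exact key h

end

end Pool.Agent.R812.SF
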